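import Pool.Agent.Lib.MP_cf0832_co.Graph

/-!
Cut distance of the counterexample graphs to the limit kernel.
-/

namespace Pool.Agent.Lib.MP_cf0832_co

open MeasureTheory Finset
open scoped unitInterval

/-- The limit kernel: `1` if exactly one of `x, y` is `< 1/2`, and `0` otherwise. -/
noncomputable def ker0 (x y : I) : ℝ :=
  open Classical in if ((x : ℝ) < 1 / 2 ↔ (y : ℝ) < 1 / 2) then 0 else 1

/-- The cell of a vertex. -/
def cell (n i : ℕ) : Set I := {x | i + 1 = ⌈(n : ℝ) * x⌉₊}

/-- Indicator. -/
noncomputable def ind (A : Set I) : I → ℝ := A.indicator (fun _ => 1)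

theorem ind_mem {A : Set I} {x : I} (h : x ∈ A) : ind A x = 1 := by
  simp [ind, h]

theorem ind_notMem {A : Set I} {x : I} (h : x ∉ A) : ind A x = 0 := by
  simp [ind, h]

theorem measurable_cell (n i : ℕ) : MeasurableSet (cell n i) := by
  unfold cell
  have h : Measurable (fun x : I => ⌈(n : ℝ) * x⌉₊) :=
    Nat.measurable_ceil.comp (measurable_const.mul measurable_subtype_coe)
  exact measurableSet_eq_fun measurable_const h

theorem measurable_ind {A : Set I} (hA : MeasurableSet A) : Measurable (ind A) :=
  measurable_const.indicator hA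

theorem vol_between (a b : ℝ) (hab : a ≤ b) :
    volume.real {x : I | a ≤ (x : ℝ) ∧ (x : ℝ) ≤ b} ≤ b - a := by
  rw [measureReal_def]
  apply ENNReal.toReal_le_of_le_ofReal (by linarith)
  rw [unitInterval.volume_apply, ← Real.volume_Icc]
  apply measure_mono
  rintro _ ⟨x, hx, rfl⟩
  exact hx

theorem cell_sub (n i : ℕ) (hn : 0 < n) :
    cell n i ⊆ {x : I | (i : ℝ) / n ≤ (x : ℝ) ∧ (x : ℝ) ≤ ((i : ℝ) + 1) / n} := by
  intro x hx
  have hx : i + 1 = ⌈(n : ℝ) * x⌉₊ := hx
  have hn' : (0 : ℝ) < n := by exact_mod_cast hn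
  have h1 : (n : ℝ) * x ≤ (i : ℝ) + 1 := by
    have := Nat.le_ceil ((n : ℝ) * x)
    rw [← hx] at this
    exact_mod_cast this
  have h2 : (i : ℝ) < (n : ℝ) * x := by
    have : i < ⌈(n : ℝ) * x⌉₊ := by omega
    exact Nat.lt_ceil.1 this
  constructor
  · rw [div_le_iff₀ hn']; linarith
  · rw [le_div_iff₀ hn']; linarith

theorem vol_cell (n i : ℕ) (hn : 0 < n) (S : Set I) : volume.real (S ∩ cell n i) ≤ 1 / n := by
  have hn' : (0 : ℝ) < n := by exact_mod_cast hn
  calc volume.real (S ∩ cell n i)
      ≤ volume.real {x : I | (i : ℝ) / n ≤ (x : ℝ) ∧ (x : ℝ) ≤ ((i : ℝ) + 1) / n} :=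
        measureReal_mono (Set.inter_subset_right.trans (cell_sub n i hn))
    _ ≤ ((i : ℝ) + 1) / n - (i : ℝ) / n := vol_between _ _ (by gcongr; linarith)
    _ = 1 / n := by ring

theorem cell_disj (n : ℕ) {i j : ℕ} (h : i ≠ j) : Disjoint (cell n i) (cell n j) := by
  rw [Set.disjoint_left]
  intro x hx hy
  have hx : i + 1 = ⌈(n : ℝ) * x⌉₊ := hx
  have hy : j + 1 = ⌈(n : ℝ) * x⌉₊ := hy
  omega

open Classical in
/-- The graph kernel as a sum over cells. -/
theorem kerG_eq {n : ℕ} (G : SimpleGraph (Fin n)) (p : ℝ) (x y : I) :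
    kerG G p x y = ∑ i : Fin n, ∑ j : Fin n,
      (if G.Adj i j then 1 / p else 0) * (ind (cell n i) x * ind (cell n j) y) := by
  unfold kerG
  split_ifs with h
  · obtain ⟨i, j, hi, hj, hij⟩ := h
    rw [Finset.sum_eq_single i, Finset.sum_eq_single j]
    · rw [if_pos hij, ind_mem (show x ∈ cell n i from hi), ind_mem (show y ∈ cell n j from hj)]
      ring
    · intro j' _ hj'
      have : y ∉ cell n j' := by
        intro hy
        have hy : (j' : ℕ) + 1 = ⌈(n : ℝ) * y⌉₊ := hy
        exact hj' (Fin.ext (by omega))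
      rw [ind_notMem this]; ring
    · simp
    · intro i' _ hi'
      have : x ∉ cell n i' := by
        intro hx
        have hx : (i' : ℕ) + 1 = ⌈(n : ℝ) * x⌉₊ := hx
        exact hi' (Fin.ext (by omega))
      apply Finset.sum_eq_zero
      intro j _
      rw [ind_notMem this]; ring
    · simp
  · symm
    apply Finset.sum_eq_zero
    intro i _
    apply Finset.sum_eq_zero
    intro j _
    by_cases hx : x ∈ cell n i
    · by_cases hy : y ∈ cell n j
      · rw [if_neg (fun hij => h ⟨i, j, hx, hy, hij⟩)]; ring
      · rw [ind_notMem hy]; ring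
    · rw [ind_notMem hx]; ring

/-- The half `x < 1/2`. -/
def H : Set I := {x | (x : ℝ) < 1 / 2}

theorem measurable_H : MeasurableSet H :=
  measurableSet_lt measurable_subtype_coe measurable_const

theorem ker0_eq (x y : I) : ker0 x y = ind H x * ind Hᶜ y + ind Hᶜ x * ind H y := by
  unfold ker0
  by_cases hx : (x : ℝ) < 1 / 2 <;> by_cases hy : (y : ℝ) < 1 / 2
  · rw [if_pos (by tauto), ind_notMem (show y ∉ Hᶜ from fun h => h hy),
      ind_notMem (show x ∉ Hᶜ from fun h => h hx)]
    ring
  · rw [if_neg (by tauto), ind_mem (show x ∈ H from hx), ind_mem (show y ∈ Hᶜ from hy),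
      ind_notMem (show y ∉ H from hy)]
    ring
  · rw [if_neg (by tauto), ind_mem (show y ∈ H from hy), ind_mem (show x ∈ Hᶜ from hx),
      ind_notMem (show x ∉ H from hx)]
    ring
  · rw [if_pos (by tauto), ind_notMem (show x ∉ H from hx), ind_notMem (show y ∉ H from hy)]
    ring

theorem setIntegral_ind (S A : Set I) (hA : MeasurableSet A) :
    ∫ x in S, ind A x = volume.real (S ∩ A) := by
  unfold ind
  rw [integral_indicator hA, integral_const, smul_eq_mul, mul_one, measureReal_def,
    Measure.restrict_apply MeasurableSet.univ, Set.univ_inter, measureReal_def,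
    Measure.restrict_apply hA, Set.inter_comm]

theorem integrable_ind_mul (A B : Set I) (hA : MeasurableSet A) (hB : MeasurableSet B)
    (S : Set (I × I)) (c : ℝ) :
    IntegrableOn (fun z : I × I => c * (ind A z.1 * ind B z.2)) S := by
  apply Measure.integrableOn_of_bounded (M := |c|) (measure_ne_top _ _)
  · exact (measurable_const.mul (((measurable_ind hA).comp measurable_fst).mul
      ((measurable_ind hB).comp measurable_snd))).aestronglyMeasurable
  · apply Filter.Eventually.of_forall
    intro z
    rw [Real.norm_eq_abs, abs_mul]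
    have h1 : |ind A z.1 * ind B z.2| ≤ 1 := by
      by_cases h1 : z.1 ∈ A <;> by_cases h2 : z.2 ∈ B <;>
        simp [ind, h1, h2]
    calc |c| * |ind A z.1 * ind B z.2| ≤ |c| * 1 := mul_le_mul_of_nonneg_left h1 (abs_nonneg _)
      _ = |c| := mul_one _

theorem integral_ind_mul (A B S T : Set I) (hA : MeasurableSet A) (hB : MeasurableSet B) (c : ℝ) :
    ∫ z in S ×ˢ T, c * (ind A z.1 * ind B z.2) =
      c * (volume.real (S ∩ A) * volume.real (T ∩ B)) := by
  rw [integral_const_mul]
  congr 1
  have := setIntegral_prod_mul (μ := (volume : Measure I)) (ν := (volume : Measure I))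
    (ind A) (ind B) S T
  rw [setIntegral_ind S A hA, setIntegral_ind T B hB] at this
  exact this

open Classical in
theorem integral_kerG {n : ℕ} (G : SimpleGraph (Fin n)) (p : ℝ) (S T : Set I) :
    ∫ z in S ×ˢ T, kerG G p z.1 z.2 = ∑ i : Fin n, ∑ j : Fin n,
      (if G.Adj i j then 1 / p else 0) *
        (volume.real (S ∩ cell n i) * volume.real (T ∩ cell n j)) := by
  simp only [kerG_eq]
  rw [integral_finsetSum]
  · apply Finset.sum_congr rfl
    intro i _
    rw [integral_finsetSum]
    · apply Finset.sum_congr rfl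
      intro j _
      exact integral_ind_mul _ _ _ _ (measurable_cell n i) (measurable_cell n j) _
    · intro j _
      exact integrable_ind_mul _ _ (measurable_cell n i) (measurable_cell n j) _ _
  · intro i _
    apply integrable_finsetSum
    intro j _
    exact integrable_ind_mul _ _ (measurable_cell n i) (measurable_cell n j) _ _

theorem integral_ker0 (S T : Set I) :
    ∫ z in S ×ˢ T, ker0 z.1 z.2 = volume.real (S ∩ H) * volume.real (T ∩ Hᶜ) +
      volume.real (S ∩ Hᶜ) * volume.real (T ∩ H) := by
  simp only [ker0_eq]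
  rw [integral_add]
  · have h1 := integral_ind_mul H Hᶜ S T measurable_H measurable_H.compl 1
    have h2 := integral_ind_mul Hᶜ H S T measurable_H.compl measurable_H 1
    simp only [one_mul] at h1 h2
    rw [h1, h2]
  · have := integrable_ind_mul H Hᶜ measurable_H measurable_H.compl (S ×ˢ T) 1
    simp only [one_mul] at this
    exact this
  · have := integrable_ind_mul Hᶜ H measurable_H.compl measurable_H (S ×ˢ T) 1
    simp only [one_mul] at this
    exact this

theorem integrable_ker0 (S : Set (I × I)) : IntegrableOn (fun z : I × I => ker0 z.1 z.2) S := by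
  simp only [ker0_eq]
  apply Integrable.add
  · have := integrable_ind_mul H Hᶜ measurable_H measurable_H.compl S 1
    simp only [one_mul] at this
    exact this
  · have := integrable_ind_mul Hᶜ H measurable_H.compl measurable_H S 1
    simp only [one_mul] at this
    exact this

theorem integrable_kerG {n : ℕ} (G : SimpleGraph (Fin n)) (p : ℝ) (S : Set (I × I)) :
    IntegrableOn (fun z : I × I => kerG G p z.1 z.2) S := by
  classical
  simp only [kerG_eq]
  apply integrable_finsetSum
  intro i _
  apply integrable_finsetSum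
  intro j _
  exact integrable_ind_mul _ _ (measurable_cell n i) (measurable_cell n j) _ _

end Pool.Agent.Lib.MP_cf0832_co
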