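import Pool.Agent.Lib.MP_cf0832_co.Cut

/-!
The bound for the cut distance of the counterexample graphs to the limit kernel.
-/

namespace Pool.Agent.Lib.MP_cf0832_co

open MeasureTheory Finset
open scoped unitInterval

section push

variable {q : ℕ} {n : ℕ}

/-- Push-forward of a weight. -/
def push (φ : Fin n → Q3 q) (α : Fin n → ℝ) (P : Q3 q) : ℝ := ∑ i, if φ i = P then α i else 0

theorem push_bound (φ : Fin n → Q3 q) (hφ : Function.Injective φ) (α : Fin n → ℝ)
    (hα : ∀ i, 0 ≤ α i ∧ α i ≤ 1) (P : Q3 q) : 0 ≤ push φ α P ∧ push φ α P ≤ 1 := by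
  unfold push
  by_cases h : ∃ i, φ i = P
  · obtain ⟨i, rfl⟩ := h
    rw [Finset.sum_eq_single i]
    · rw [if_pos rfl]
      exact hα i
    · intro j _ hj
      rw [if_neg (fun h => hj (hφ h))]
    · simp
  · have : ∀ i ∈ (Finset.univ : Finset (Fin n)), (if φ i = P then α i else 0) = 0 := by
      intro i _
      rw [if_neg (fun h' => h ⟨i, h'⟩)]
    rw [Finset.sum_eq_zero this]
    exact ⟨le_refl _, zero_le_one⟩

theorem sum_push [NeZero q] (φ : Fin n → Q3 q) (α : Fin n → ℝ) (g : Q3 q → ℝ) :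
    ∑ P, push φ α P * g P = ∑ i, α i * g (φ i) := by
  unfold push
  simp only [Finset.sum_mul]
  rw [Finset.sum_comm]
  apply Finset.sum_congr rfl
  intro i _
  rw [Finset.sum_eq_single (φ i)]
  · rw [if_pos rfl]
  · intro P _ hP
    rw [if_neg (Ne.symm hP), zero_mul]
  · simp

theorem sum_push_one [NeZero q] (φ : Fin n → Q3 q) (α : Fin n → ℝ) :
    ∑ P, push φ α P = ∑ i, α i := by
  have := sum_push φ α (fun _ => 1)
  simpa using this

theorem sum_push_push [NeZero q] (φ : Fin n → Q3 q) (α β : Fin n → ℝ) :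
    ∑ P, ∑ L, N P L * push φ α P * push φ β L =
      ∑ i, ∑ j, α i * β j * N (φ i) (φ j) := by
  have h1 : ∀ P, ∑ L, N P L * push φ α P * push φ β L =
      push φ α P * ∑ j, β j * N P (φ j) := by
    intro P
    rw [← sum_push φ β (fun L => N P L), Finset.mul_sum]
    apply Finset.sum_congr rfl
    intro L _
    ring
  simp only [h1]
  rw [sum_push φ α (fun P => ∑ j, β j * N P (φ j))]
  apply Finset.sum_congr rfl
  intro i _
  rw [Finset.mul_sum]
  apply Finset.sum_congr rfl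
  intro j _
  ring

end push

/-- The mixing estimate transported to `Fin n`. -/
theorem mixing_fin {q : ℕ} [Fact q.Prime] {n : ℕ} (φ : Fin n → Q3 q) (hφ : Function.Injective φ)
    (α β : Fin n → ℝ) (hα : ∀ i, 0 ≤ α i ∧ α i ≤ 1) (hβ : ∀ i, 0 ≤ β i ∧ β i ≤ 1) :
    (∑ i, ∑ j, α i * β j * N (φ i) (φ j) - (∑ i, α i) * (∑ j, β j) / (q : ℝ) ^ 2) ^ 4 ≤
      4 * (q : ℝ) ^ 15 := by
  have h := mixing (push φ α) (push φ β) (push_bound φ hφ α hα) (push_bound φ hφ β hβ)
  rwa [sum_push_push, sum_push_one, sum_push_one] at h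

section meas

theorem vol_close (S A B D : Set I) (h : ∀ x, x ∉ D → (x ∈ A ↔ x ∈ B)) :
    |volume.real (S ∩ A) - volume.real (S ∩ B)| ≤ volume.real D := by
  have h1 : ∀ A B : Set I, (∀ x, x ∉ D → (x ∈ A ↔ x ∈ B)) →
      volume.real (S ∩ A) ≤ volume.real (S ∩ B) + volume.real D := by
    intro A B h
    calc volume.real (S ∩ A) ≤ volume.real ((S ∩ B) ∪ D) := by
          refine measureReal_mono ?_ (measure_ne_top _ _)
          rintro x ⟨hx, hxA⟩
          by_cases hD : x ∈ D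
          · exact Or.inr hD
          · exact Or.inl ⟨hx, (h x hD).1 hxA⟩
      _ ≤ _ := measureReal_union_le _ _
  rw [abs_le]
  constructor
  · linarith [h1 B A (fun x hx => (h x hx).symm)]
  · linarith [h1 A B h]

theorem vol_le_one (S : Set I) : volume.real S ≤ 1 := measureReal_le_one

/-- Sum of the measures of the pieces. -/
theorem sum_cells {n : ℕ} (R : ℕ → Prop) [DecidablePred R] (S : Set I) (hS : MeasurableSet S) :
    ∑ i : Fin n, (if R i then volume.real (S ∩ cell n i) else 0) =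
      volume.real (S ∩ ⋃ i ∈ Finset.univ.filter (fun i : Fin n => R i), cell n i) := by
  rw [← Finset.sum_filter, Set.inter_iUnion₂, measureReal_biUnion_finset]
  · intro i _ j _ hij
    exact (cell_disj n (fun h => hij (Fin.ext h))).mono Set.inter_subset_right Set.inter_subset_right
  · intro i _
    exact hS.inter (measurable_cell n i)

theorem ceil_le_n {n : ℕ} (x : I) : ⌈(n : ℝ) * x⌉₊ ≤ n := by
  apply Nat.ceil_le.2
  have := x.2.2
  have : (n : ℝ) * x ≤ n * 1 := mul_le_mul_of_nonneg_left this (Nat.cast_nonneg n)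
  linarith

theorem mem_cells {n : ℕ} (R : ℕ → Prop) [DecidablePred R] (x : I) :
    x ∈ (⋃ i ∈ Finset.univ.filter (fun i : Fin n => R i), cell n i) ↔
      0 < ⌈(n : ℝ) * x⌉₊ ∧ R (⌈(n : ℝ) * x⌉₊ - 1) := by
  simp only [Set.mem_iUnion, Finset.mem_filter, Finset.mem_univ, true_and, exists_prop]
  constructor
  · rintro ⟨i, hi, hx⟩
    have hx : (i : ℕ) + 1 = ⌈(n : ℝ) * x⌉₊ := hx
    rw [← hx]
    exact ⟨by omega, by simpa using hi⟩
  · rintro ⟨h1, h2⟩
    have := ceil_le_n (n := n) x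
    refine ⟨⟨⌈(n : ℝ) * x⌉₊ - 1, by omega⟩, h2, ?_⟩
    show ⌈(n : ℝ) * x⌉₊ - 1 + 1 = ⌈(n : ℝ) * x⌉₊
    omega

/-- The exceptional set. -/
def exc (n m : ℕ) : Set I :=
  {x | (0 : ℝ) ≤ (x : ℝ) ∧ (x : ℝ) ≤ (m : ℝ) / n} ∪
    {x | ((n / 2 : ℕ) : ℝ) / n ≤ (x : ℝ) ∧ (x : ℝ) ≤ 1 / 2}

theorem half_bounds {n : ℕ} (hn : 0 < n) : ((n / 2 : ℕ) : ℝ) / n ≤ 1 / 2 ∧
    1 / 2 - ((n / 2 : ℕ) : ℝ) / n ≤ 1 / n := by
  have hn' : (0 : ℝ) < n := by exact_mod_cast hn
  have h1 : (2 : ℝ) * ((n / 2 : ℕ) : ℝ) ≤ n := by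
    have : 2 * (n / 2) ≤ n := by omega
    exact_mod_cast this
  have h2 : (n : ℝ) ≤ 2 * ((n / 2 : ℕ) : ℝ) + 1 := by
    have : n ≤ 2 * (n / 2) + 1 := by omega
    exact_mod_cast this
  constructor
  · rw [div_le_iff₀ hn']; linarith
  · rw [sub_le_iff_le_add, ← add_div, le_div_iff₀ hn']; linarith

theorem vol_exc {n m : ℕ} (hn : 0 < n) : volume.real (exc n m) ≤ ((m : ℝ) + 1) / n := by
  have hn' : (0 : ℝ) < n := by exact_mod_cast hn
  obtain ⟨h1, h2⟩ := half_bounds hn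
  calc volume.real (exc n m) ≤ _ + _ := measureReal_union_le _ _
    _ ≤ ((m : ℝ) / n - 0) + (1 / 2 - ((n / 2 : ℕ) : ℝ) / n) := by
        apply add_le_add
        · exact vol_between _ _ (by positivity)
        · exact vol_between _ _ h1
    _ ≤ (m : ℝ) / n + 1 / n := by linarith
    _ = ((m : ℝ) + 1) / n := by ring

theorem cells_A {n m : ℕ} (hn : 0 < n) (x : I) (hx : x ∉ exc n m) :
    x ∈ (⋃ i ∈ Finset.univ.filter (fun i : Fin n => m ≤ (i : ℕ) ∧ (i : ℕ) < n / 2), cell n i) ↔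
      x ∈ H := by
  have hn' : (0 : ℝ) < n := by exact_mod_cast hn
  obtain ⟨h1, h2⟩ := half_bounds hn
  rw [mem_cells (fun i => m ≤ i ∧ i < n / 2)]
  unfold exc at hx
  simp only [Set.mem_union, Set.mem_ofPred_eq, not_or, not_and, not_le] at hx
  obtain ⟨hx1, hx2⟩ := hx
  have hx1 := hx1 x.2.1
  rw [div_lt_iff₀ hn'] at hx1
  have g1 : m < ⌈(n : ℝ) * x⌉₊ := by
    rw [Nat.lt_ceil]; linarith
  show _ ↔ (x : ℝ) < 1 / 2
  constructor
  · rintro ⟨-, -, h4⟩
    have h5 : ⌈(n : ℝ) * x⌉₊ ≤ n / 2 := by omega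
    rw [Nat.ceil_le] at h5
    by_contra hc
    push Not at hc
    rw [div_le_iff₀ hn'] at h1
    have h6 : (x : ℝ) * n ≤ ((n / 2 : ℕ) : ℝ) := by linarith
    have h7 : ((n / 2 : ℕ) : ℝ) / n ≤ x := by
      rw [div_le_iff₀ hn']
      nlinarith
    have := hx2 h7
    nlinarith
  · intro h
    refine ⟨by omega, by omega, ?_⟩
    have h5 : (x : ℝ) < ((n / 2 : ℕ) : ℝ) / n := by
      by_contra hc
      push Not at hc
      have := hx2 hc
      linarith
    rw [lt_div_iff₀ hn'] at h5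
    have h6 : ⌈(n : ℝ) * x⌉₊ ≤ n / 2 := by
      rw [Nat.ceil_le]; linarith
    omega

theorem cells_B {n m : ℕ} (hn : 0 < n) (x : I) (hx : x ∉ exc n m) :
    x ∈ (⋃ i ∈ Finset.univ.filter (fun i : Fin n => n / 2 ≤ (i : ℕ)), cell n i) ↔
      x ∈ Hᶜ := by
  have hn' : (0 : ℝ) < n := by exact_mod_cast hn
  obtain ⟨h1, h2⟩ := half_bounds hn
  rw [mem_cells (fun i => n / 2 ≤ i)]
  unfold exc at hx
  simp only [Set.mem_union, Set.mem_ofPred_eq, not_or, not_and, not_le] at hx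
  obtain ⟨hx1, hx2⟩ := hx
  show _ ↔ ¬ ((x : ℝ) < 1 / 2)
  constructor
  · rintro ⟨h3, h4⟩ hc
    have h5 : n / 2 < ⌈(n : ℝ) * x⌉₊ := by omega
    rw [Nat.lt_ceil] at h5
    have h6 : ((n / 2 : ℕ) : ℝ) / n ≤ x := by
      rw [div_le_iff₀ hn']; linarith
    have := hx2 h6
    linarith
  · intro h
    push Not at h
    have h3 : (1 : ℝ) / 2 < x := by
      rcases h.lt_or_eq with h | h
      · exact h
      · exfalso
        have := hx2 (by rw [← h]; exact h1)
        linarith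
    have h5 : n / 2 < ⌈(n : ℝ) * x⌉₊ := by
      rw [Nat.lt_ceil]
      rw [div_le_iff₀ hn'] at h1
      nlinarith
    omega

end meas

open Classical in
/-- Splitting of the adjacency indicator. -/
theorem adj_split {n q t : ℕ} [Fact q.Prime] (hm : 2 * t ^ 3 + 3 ≤ n / 2) (i j : Fin n) :
    (if (gr n q t).Adj i j then (1 : ℝ) else 0) =
      (if 2 * t ^ 3 + 3 ≤ (i : ℕ) ∧ (i : ℕ) < n / 2 then 1 else 0) *
        (if n / 2 ≤ (j : ℕ) then 1 else 0) * N (vec q i) (vec q j) +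
      (if 2 * t ^ 3 + 3 ≤ (j : ℕ) ∧ (j : ℕ) < n / 2 then 1 else 0) *
        (if n / 2 ≤ (i : ℕ) then 1 else 0) * N (vec q j) (vec q i) +
      (if relPL t i j ∨ relPL t j i then 1 else 0) := by
  have key : ∀ i j : Fin n, (if 2 * t ^ 3 + 3 ≤ (i : ℕ) ∧ (i : ℕ) < n / 2 then (1 : ℝ) else 0) *
        (if n / 2 ≤ (j : ℕ) then 1 else 0) * N (vec q i) (vec q j) =
      if relBG n q t i j then 1 else 0 := by
    intro i j
    unfold N relBG
    by_cases h1 : 2 * t ^ 3 + 3 ≤ (i : ℕ) <;> by_cases h2 : (i : ℕ) < n / 2 <;>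
      by_cases h3 : n / 2 ≤ (j : ℕ) <;> by_cases h4 : inc (vec q i) (vec q j) <;>
      simp [h1, h2, h3, h4]
  rw [key i j, key j i]
  by_cases h1 : relPL t i j ∨ relPL t j i
  · have h2 : ¬ relBG n q t i j := by
      intro h
      unfold relBG at h
      rcases h1 with h1 | h1 <;> have := relPL_lt h1 <;> omega
    have h3 : ¬ relBG n q t j i := by
      intro h
      unfold relBG at h
      rcases h1 with h1 | h1 <;> have := relPL_lt h1 <;> omega
    rw [if_pos h1, if_neg h2, if_neg h3, if_pos]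
    · ring
    · rw [adj_iff]
      rcases h1 with h1 | h1
      · exact Or.inl (Or.inl h1)
      · exact Or.inr (Or.inl h1)
  · rw [if_neg h1]
    by_cases h2 : relBG n q t i j
    · have h3 : ¬ relBG n q t j i := by
        intro h
        have := relBG_lt h
        have := relBG_lt h2
        omega
      rw [if_pos h2, if_neg h3, if_pos]
      · ring
      · rw [adj_iff]
        exact Or.inl (Or.inr h2)
    · by_cases h3 : relBG n q t j i
      · rw [if_neg h2, if_pos h3, if_pos]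
        · ring
        · rw [adj_iff]
          exact Or.inr (Or.inr h3)
      · rw [if_neg h2, if_neg h3, if_neg]
        · ring
        · rw [adj_iff]
          tauto

/-- The background part of the integral. -/
theorem bg_part {n q m : ℕ} [Fact q.Prime] (hn0 : 0 < n) (hn : n < q ^ 3)
    (hq : q ^ 3 ≤ 64 * n)
    (S T : Set I) (hS : MeasurableSet S) (hT : MeasurableSet T) (ε : ℝ) (hε : 0 ≤ ε)
    (hεq : 4 * 64 ^ 8 / (q : ℝ) ≤ ε ^ 4) :
    |∑ i : Fin n, ∑ j : Fin n, (q : ℝ) ^ 2 *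
        ((if m ≤ (i : ℕ) ∧ (i : ℕ) < n / 2 then 1 else 0) * (if n / 2 ≤ (j : ℕ) then 1 else 0) *
          N (vec q i) (vec q j)) * (volume.real (S ∩ cell n i) * volume.real (T ∩ cell n j)) -
      volume.real (S ∩ H) * volume.real (T ∩ Hᶜ)| ≤ ε + 2 * (((m : ℝ) + 1) / n) := by
  have hn' : (0 : ℝ) < n := by exact_mod_cast hn0
  have hq0 : (0 : ℝ) < q := by exact_mod_cast (Fact.out : q.Prime).pos
  set a : Fin n → ℝ := fun i => if m ≤ (i : ℕ) ∧ (i : ℕ) < n / 2 then
    volume.real (S ∩ cell n i) else 0 with ha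
  set b : Fin n → ℝ := fun j => if n / 2 ≤ (j : ℕ) then volume.real (T ∩ cell n j) else 0 with hb
  have hφ : Function.Injective (fun i : Fin n => vec q (i : ℕ)) := by
    intro x y h
    exact Fin.ext (vec_inj (Fact.out : q.Prime).pos (by have := x.2; omega)
      (by have := y.2; omega) h)
  have hα : ∀ i, 0 ≤ n * a i ∧ n * a i ≤ 1 := by
    intro i
    simp only [ha]
    split_ifs
    · refine ⟨by positivity, ?_⟩
      calc (n : ℝ) * volume.real (S ∩ cell n i) ≤ n * (1 / n) := by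
            gcongr; exact vol_cell n i hn0 S
        _ = 1 := by field_simp
    · constructor <;> simp
  have hβ : ∀ i, 0 ≤ n * b i ∧ n * b i ≤ 1 := by
    intro i
    simp only [hb]
    split_ifs
    · refine ⟨by positivity, ?_⟩
      calc (n : ℝ) * volume.real (T ∩ cell n i) ≤ n * (1 / n) := by
            gcongr; exact vol_cell n i hn0 T
        _ = 1 := by field_simp
    · constructor <;> simp
  have hmix := mixing_fin (fun i : Fin n => vec q (i : ℕ)) hφ (fun i => n * a i)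
    (fun i => n * b i) hα hβ
  set E : ℝ := ∑ i : Fin n, ∑ j : Fin n, (n * a i) * (n * b j) * N (vec q i) (vec q j) -
    (∑ i, n * a i) * (∑ j, n * b j) / (q : ℝ) ^ 2 with hE
  have e1 : ∑ i : Fin n, ∑ j : Fin n, (q : ℝ) ^ 2 *
        ((if m ≤ (i : ℕ) ∧ (i : ℕ) < n / 2 then 1 else 0) * (if n / 2 ≤ (j : ℕ) then 1 else 0) *
          N (vec q i) (vec q j)) * (volume.real (S ∩ cell n i) * volume.real (T ∩ cell n j)) =
      (q : ℝ) ^ 2 / (n : ℝ) ^ 2 * E + (∑ i, a i) * (∑ j, b j) := by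
    have h1 : ∑ i : Fin n, ∑ j : Fin n, (q : ℝ) ^ 2 *
        ((if m ≤ (i : ℕ) ∧ (i : ℕ) < n / 2 then 1 else 0) * (if n / 2 ≤ (j : ℕ) then 1 else 0) *
          N (vec q i) (vec q j)) * (volume.real (S ∩ cell n i) * volume.real (T ∩ cell n j)) =
        (q : ℝ) ^ 2 / (n : ℝ) ^ 2 *
          ∑ i : Fin n, ∑ j : Fin n, (n * a i) * (n * b j) * N (vec q i) (vec q j) := by
      rw [Finset.mul_sum]
      apply Finset.sum_congr rfl
      intro i _
      rw [Finset.mul_sum]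
      apply Finset.sum_congr rfl
      intro j _
      simp only [ha, hb]
      split_ifs <;> field_simp <;> ring
    rw [h1, hE, ← Finset.mul_sum, ← Finset.mul_sum]
    field_simp
    ring
  have hE4 : ((q : ℝ) ^ 2 / (n : ℝ) ^ 2 * E) ^ 4 ≤ ε ^ 4 := by
    have hqn : (q : ℝ) ^ 3 ≤ 64 * n := by exact_mod_cast hq
    calc ((q : ℝ) ^ 2 / (n : ℝ) ^ 2 * E) ^ 4 = (q : ℝ) ^ 8 / (n : ℝ) ^ 8 * E ^ 4 := by
          field_simp
      _ ≤ (q : ℝ) ^ 8 / (n : ℝ) ^ 8 * (4 * (q : ℝ) ^ 15) := by gcongr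
      _ = 4 * ((q : ℝ) ^ 3) ^ 8 / ((n : ℝ) ^ 8 * q) := by field_simp
      _ ≤ 4 * (64 * n) ^ 8 / ((n : ℝ) ^ 8 * q) := by gcongr
      _ = 4 * 64 ^ 8 / (q : ℝ) := by field_simp
      _ ≤ ε ^ 4 := hεq
  have hE1 : |(q : ℝ) ^ 2 / (n : ℝ) ^ 2 * E| ≤ ε := by
    have : |(q : ℝ) ^ 2 / (n : ℝ) ^ 2 * E| ^ 4 ≤ ε ^ 4 := by
      rw [← abs_pow, abs_of_nonneg (by positivity)]
      exact hE4
    exact le_of_pow_le_pow_left₀ (by norm_num) hε this
  have hsa : ∑ i, a i = volume.real (S ∩ ⋃ i ∈ Finset.univ.filter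
      (fun i : Fin n => m ≤ (i : ℕ) ∧ (i : ℕ) < n / 2), cell n i) :=
    sum_cells (fun i => m ≤ i ∧ i < n / 2) S hS
  have hsb : ∑ j, b j = volume.real (T ∩ ⋃ i ∈ Finset.univ.filter
      (fun i : Fin n => n / 2 ≤ (i : ℕ)), cell n i) :=
    sum_cells (fun i => n / 2 ≤ i) T hT
  have ha1 : |∑ i, a i - volume.real (S ∩ H)| ≤ ((m : ℝ) + 1) / n := by
    rw [hsa]
    exact (vol_close S _ _ _ (cells_A hn0)).trans (vol_exc hn0)
  have hb1 : |∑ j, b j - volume.real (T ∩ Hᶜ)| ≤ ((m : ℝ) + 1) / n := by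
    rw [hsb]
    exact (vol_close T _ _ _ (cells_B (m := m) hn0)).trans (vol_exc hn0)
  have hb2 : |∑ j, b j| ≤ 1 := by
    rw [hsb, abs_of_nonneg measureReal_nonneg]
    exact vol_le_one _
  have ha2 : |volume.real (S ∩ H)| ≤ 1 := by
    rw [abs_of_nonneg measureReal_nonneg]
    exact vol_le_one _
  rw [e1]
  have e3 : (q : ℝ) ^ 2 / (n : ℝ) ^ 2 * E + (∑ i, a i) * (∑ j, b j) -
      volume.real (S ∩ H) * volume.real (T ∩ Hᶜ) = (q : ℝ) ^ 2 / (n : ℝ) ^ 2 * E +
      ((∑ i, a i - volume.real (S ∩ H)) * (∑ j, b j) +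
        volume.real (S ∩ H) * (∑ j, b j - volume.real (T ∩ Hᶜ))) := by ring
  rw [e3]
  have hd : 0 ≤ ((m : ℝ) + 1) / n := by positivity
  calc |(q : ℝ) ^ 2 / (n : ℝ) ^ 2 * E +
      ((∑ i, a i - volume.real (S ∩ H)) * (∑ j, b j) +
        volume.real (S ∩ H) * (∑ j, b j - volume.real (T ∩ Hᶜ)))|
      ≤ |(q : ℝ) ^ 2 / (n : ℝ) ^ 2 * E| + (|(∑ i, a i - volume.real (S ∩ H)) * (∑ j, b j)| +
        |volume.real (S ∩ H) * (∑ j, b j - volume.real (T ∩ Hᶜ))|) :=
        (abs_add_le _ _).trans (add_le_add_right (abs_add_le _ _) _)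
    _ ≤ ε + (((m : ℝ) + 1) / n * 1 + 1 * (((m : ℝ) + 1) / n)) := by
        apply add_le_add hE1
        apply add_le_add
        · rw [abs_mul]; exact mul_le_mul ha1 hb2 (abs_nonneg _) hd
        · rw [abs_mul]; exact mul_le_mul ha2 hb1 (abs_nonneg _) zero_le_one
    _ = _ := by ring

/-- The planted part of the integral. -/
theorem pl_part {n : ℕ} (hn0 : 0 < n) (c : ℝ) (hc : 0 ≤ c) (S T : Set I)
    (f : Fin n → Fin n → ℝ) (hf : ∀ i j, 0 ≤ f i j ∧ f i j ≤ 1)
    (m : ℕ) (hf0 : ∀ i j : Fin n, ¬ ((i : ℕ) < m ∧ (j : ℕ) < m) → f i j = 0) :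
    |∑ i : Fin n, ∑ j : Fin n, c * f i j *
      (volume.real (S ∩ cell n i) * volume.real (T ∩ cell n j))| ≤ c * (m : ℝ) ^ 2 / n ^ 2 := by
  have hn' : (0 : ℝ) < n := by exact_mod_cast hn0
  have h0 : ∀ i j : Fin n, 0 ≤ c * f i j *
      (volume.real (S ∩ cell n i) * volume.real (T ∩ cell n j)) := by
    intro i j
    have := (hf i j).1
    positivity
  rw [abs_of_nonneg (Finset.sum_nonneg fun i _ => Finset.sum_nonneg fun j _ => h0 i j)]
  have h1 : ∀ i j : Fin n, c * f i j *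
      (volume.real (S ∩ cell n i) * volume.real (T ∩ cell n j)) ≤
      (if (i : ℕ) < m then 1 else 0) * (if (j : ℕ) < m then 1 else 0) * (c * (1 / n * (1 / n))) := by
    intro i j
    by_cases h : (i : ℕ) < m ∧ (j : ℕ) < m
    · rw [if_pos h.1, if_pos h.2, one_mul, one_mul]
      have e1 := vol_cell n i hn0 S
      have e2 := vol_cell n j hn0 T
      have e3 := hf i j
      calc c * f i j * (volume.real (S ∩ cell n i) * volume.real (T ∩ cell n j))
          ≤ c * 1 * (1 / n * (1 / n)) := by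
            apply mul_le_mul
            · exact mul_le_mul_of_nonneg_left e3.2 hc
            · exact mul_le_mul e1 e2 measureReal_nonneg (by positivity)
            · positivity
            · positivity
        _ = _ := by ring
    · rw [hf0 i j h]
      simp only [mul_zero, zero_mul]
      positivity
  have h2 : ∑ i : Fin n, (if (i : ℕ) < m then (1 : ℝ) else 0) ≤ m := by
    rw [← Finset.sum_filter, Finset.sum_const, nsmul_eq_mul, mul_one]
    have : (Finset.univ.filter (fun i : Fin n => (i : ℕ) < m)).card ≤ m := by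
      calc (Finset.univ.filter (fun i : Fin n => (i : ℕ) < m)).card
          ≤ (Finset.range m).card := by
            apply Finset.card_le_card_of_injOn (fun i : Fin n => (i : ℕ))
            · intro i hi
              simpa using hi
            · intro i _ j _ h
              exact Fin.ext h
        _ = m := Finset.card_range m
    exact_mod_cast this
  calc ∑ i : Fin n, ∑ j : Fin n, c * f i j *
      (volume.real (S ∩ cell n i) * volume.real (T ∩ cell n j))
      ≤ ∑ i : Fin n, ∑ j : Fin n, (if (i : ℕ) < m then 1 else 0) *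
        (if (j : ℕ) < m then 1 else 0) * (c * (1 / n * (1 / n))) :=
        Finset.sum_le_sum fun i _ => Finset.sum_le_sum fun j _ => h1 i j
    _ = (∑ i : Fin n, (if (i : ℕ) < m then (1 : ℝ) else 0)) *
        (∑ j : Fin n, (if (j : ℕ) < m then (1 : ℝ) else 0)) * (c * (1 / n * (1 / n))) := by
        rw [Finset.sum_mul_sum, Finset.sum_mul]
        apply Finset.sum_congr rfl
        intro i _
        rw [Finset.sum_mul]
    _ ≤ m * m * (c * (1 / n * (1 / n))) := by
        have h3 : 0 ≤ ∑ i : Fin n, (if (i : ℕ) < m then (1 : ℝ) else 0) :=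
          Finset.sum_nonneg fun i _ => by split_ifs <;> norm_num
        gcongr
    _ = c * (m : ℝ) ^ 2 / n ^ 2 := by field_simp

/-- **The cut estimate.** -/
theorem cut_le {n q t : ℕ} [Fact q.Prime] (hn0 : 0 < n) (hn : n < q ^ 3)
    (hm : 2 * t ^ 3 + 3 ≤ n / 2) (hq : q ^ 3 ≤ 64 * n)
    (S T : Set I) (hS : MeasurableSet S) (hT : MeasurableSet T) (ε : ℝ) (hε : 0 ≤ ε)
    (hεq : 4 * 64 ^ 8 / (q : ℝ) ≤ ε ^ 4) :
    |∫ z in S ×ˢ T, (kerG (gr n q t) (1 / (q : ℝ) ^ 2) z.1 z.2 - ker0 z.1 z.2)| ≤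
      2 * ε + 4 * (((2 * t ^ 3 + 3 : ℕ) + 1 : ℝ) / n) +
        (q : ℝ) ^ 2 * ((2 * t ^ 3 + 3 : ℕ) : ℝ) ^ 2 / n ^ 2 := by
  classical
  rw [integral_sub (integrable_kerG _ _ _) (integrable_ker0 _), integral_kerG, integral_ker0]
  set m : ℕ := 2 * t ^ 3 + 3 with hmdef
  have e1 : ∑ i : Fin n, ∑ j : Fin n,
      (if (gr n q t).Adj i j then 1 / (1 / (q : ℝ) ^ 2) else 0) *
        (volume.real (S ∩ cell n i) * volume.real (T ∩ cell n j)) =
      ∑ i : Fin n, ∑ j : Fin n, (q : ℝ) ^ 2 *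
        ((if m ≤ (i : ℕ) ∧ (i : ℕ) < n / 2 then 1 else 0) * (if n / 2 ≤ (j : ℕ) then 1 else 0) *
          N (vec q i) (vec q j)) * (volume.real (S ∩ cell n i) * volume.real (T ∩ cell n j)) +
      ∑ i : Fin n, ∑ j : Fin n, (q : ℝ) ^ 2 *
        ((if m ≤ (i : ℕ) ∧ (i : ℕ) < n / 2 then 1 else 0) * (if n / 2 ≤ (j : ℕ) then 1 else 0) *
          N (vec q i) (vec q j)) * (volume.real (T ∩ cell n i) * volume.real (S ∩ cell n j)) +
      ∑ i : Fin n, ∑ j : Fin n, (q : ℝ) ^ 2 * (if relPL t i j ∨ relPL t j i then 1 else 0) *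
        (volume.real (S ∩ cell n i) * volume.real (T ∩ cell n j)) := by
    rw [Finset.sum_comm (f := fun (i : Fin n) (j : Fin n) => (q : ℝ) ^ 2 *
        ((if m ≤ (i : ℕ) ∧ (i : ℕ) < n / 2 then 1 else 0) * (if n / 2 ≤ (j : ℕ) then 1 else 0) *
          N (vec q i) (vec q j)) * (volume.real (T ∩ cell n i) * volume.real (S ∩ cell n j)))]
    rw [← Finset.sum_add_distrib, ← Finset.sum_add_distrib]
    apply Finset.sum_congr rfl
    intro i _
    rw [← Finset.sum_add_distrib, ← Finset.sum_add_distrib]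
    apply Finset.sum_congr rfl
    intro j _
    have h1 : (if (gr n q t).Adj i j then 1 / (1 / (q : ℝ) ^ 2) else 0) =
        (q : ℝ) ^ 2 * (if (gr n q t).Adj i j then (1 : ℝ) else 0) := by
      split_ifs <;> simp
    rw [h1, adj_split hm]
    ring
  rw [e1]
  have b1 := bg_part (m := m) hn0 hn hq S T hS hT ε hε hεq
  have b2 := bg_part (m := m) hn0 hn hq T S hT hS ε hε hεq
  have b3 := pl_part hn0 ((q : ℝ) ^ 2) (by positivity) S T
    (fun i j : Fin n => if relPL t i j ∨ relPL t j i then (1 : ℝ) else 0)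
    (by intro i j; split_ifs <;> norm_num) m
    (by
      intro i j h
      rw [if_neg]
      intro h'
      apply h
      rcases h' with h' | h'
      · have := relPL_lt h'; omega
      · have := relPL_lt h'; omega)
  rw [abs_le] at b1 b2 b3 ⊢
  constructor <;> linarith [b1.1, b1.2, b2.1, b2.2, b3.1, b3.2]

end Pool.Agent.Lib.MP_cf0832_co
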