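import Mathlib

/-!
Definitions for MP_cf0832_co: embedding densities, path counts, theta graphs, cut distance to a
kernel, and the conditions (A), (B), (C), (D) of the problem.
-/

open MeasureTheory Filter Topology Asymptotics
open scoped unitInterval

namespace Pool.Agent.Lib.MP_cf0832_co

/-- `emb F G`: the number of injective homomorphisms from `F` to `G`. -/
noncomputable def emb {V : Type} (F : SimpleGraph V) {n : ℕ} (G : SimpleGraph (Fin n)) : ℕ :=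
  Nat.card {f : V → Fin n // Function.Injective f ∧ ∀ a b, F.Adj a b → G.Adj (f a) (f b)}

/-- `s_p(F,G) = emb(F,G) / (n_{(|F|)} p^{e(F)})`, where `n_{(m)} = n (n-1) ⋯ (n-m+1)`. -/
noncomputable def sp {V : Type} [Fintype V] (F : SimpleGraph V) {n : ℕ}
    (G : SimpleGraph (Fin n)) (p : ℝ) : ℝ :=
  (emb F G : ℝ) / ((n.descFactorial (Fintype.card V) : ℝ) * p ^ F.edgeSet.ncard)

/-- The number of paths of length `t` from `u` to `v` in `G`: sequences of distinct vertices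
`u = x 0, x 1, ..., x t = v` with consecutive vertices adjacent. -/
noncomputable def pathCount {n : ℕ} (G : SimpleGraph (Fin n)) (t : ℕ) (u v : Fin n) : ℕ :=
  Nat.card {x : Fin (t + 1) → Fin n // Function.Injective x ∧ x 0 = u ∧ x (Fin.last t) = v ∧
    ∀ i : Fin t, G.Adj (x i.castSucc) (x i.succ)}

/-- The vertex number `j` (`0 ≤ j ≤ l`) of the `i`-th path of the theta graph `H_{k,l}` with `l ≥ 2`;
its vertices are the two ends `Sum.inl false`, `Sum.inl true` and the inner vertices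
`Sum.inr (i, j)`, `i < k`, `j < l - 1`. -/
def thetaVertex (k l : ℕ) (i : Fin k) (j : ℕ) : Bool ⊕ (Fin k × Fin (l - 1)) :=
  if j = 0 then Sum.inl false
  else if h : j - 1 < l - 1 then Sum.inr (i, ⟨j - 1, h⟩)
  else Sum.inl true

/-- The theta graph `H_{k,l}`: `k` paths of length `l` joining the same two vertices, pairwise
internally vertex-disjoint. -/
def theta (k l : ℕ) : SimpleGraph (Bool ⊕ (Fin k × Fin (l - 1))) :=
  SimpleGraph.fromRel (fun a b => ∃ i : Fin k, ∃ j : ℕ, j < l ∧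
    a = thetaVertex k l i j ∧ b = thetaVertex k l i (j + 1))

/-- The kernel `κ_G` of a graph with vertices `1, ..., n` (vertex `i + 1` is `i : Fin n`):
`κ_G(x,y) = 1/p` if the vertices `⌈nx⌉` and `⌈ny⌉` are adjacent, and `0` otherwise. -/
noncomputable def kerG {n : ℕ} (G : SimpleGraph (Fin n)) (p : ℝ) (x y : I) : ℝ :=
  open Classical in
  if ∃ i j : Fin n, (i : ℕ) + 1 = ⌈(n : ℝ) * x⌉₊ ∧ (j : ℕ) + 1 = ⌈(n : ℝ) * y⌉₊ ∧ G.Adj i j
  then 1 / p else 0

/-- The cut norm `sup_{S,T} |∫_{S×T} W|`, over measurable `S, T ⊆ [0,1]`. -/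
noncomputable def cutNorm (W : I → I → ℝ) : ℝ :=
  ⨆ A : {A : Set I × Set I // MeasurableSet A.1 ∧ MeasurableSet A.2},
    |∫ z in A.1.1 ×ˢ A.1.2, W z.1 z.2|

/-- `d_cut(G, κ) = inf_φ ‖κ_G - κ^φ‖_□`, the infimum over the measure-preserving bijections `φ` of
`[0,1]`, where `κ^φ(x,y) = κ(φ(x),φ(y))`. -/
noncomputable def dCut {n : ℕ} (G : SimpleGraph (Fin n)) (p : ℝ) (κ : I → I → ℝ) : ℝ :=
  ⨅ φ : {φ : I ≃ᵐ I // MeasurePreserving φ},
    cutNorm (fun x y => kerG G p x y - κ (φ.1 x) (φ.1 y))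

/-- A kernel with values in `[0,C]`. -/
def IsKernel (C : ℝ) (κ : I → I → ℝ) : Prop :=
  Measurable (Function.uncurry κ) ∧ (∀ x y, κ x y = κ y x) ∧ ∀ x y, 0 ≤ κ x y ∧ κ x y ≤ C

/-- Condition (A): `sup_n s_p(T,G_n) < ∞` for every finite tree `T`. -/
def CondA (p : ℕ → ℝ) (G : (n : ℕ) → SimpleGraph (Fin n)) : Prop :=
  ∀ (m : ℕ) (T : SimpleGraph (Fin m)), T.IsTree →
    BddAbove (Set.range fun n => sp T (G n) (p n))

/-- Condition (B): `∑_u ∑_{v≠u} p_{l-1}(u,v)² = O(n^{2l-2} p^{2l-2})`. -/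
def CondB (l : ℕ) (p : ℕ → ℝ) (G : (n : ℕ) → SimpleGraph (Fin n)) : Prop :=
  (fun n : ℕ => ∑ u : Fin n, ∑ v ∈ Finset.univ.filter (· ≠ u),
      (pathCount (G n) (l - 1) u v : ℝ) ^ 2) =O[atTop]
    (fun n : ℕ => (n : ℝ) ^ (2 * l - 2) * (p n) ^ (2 * l - 2))

/-- Condition (D): `∑_u ∑_{v≠u} p_l(u,v)^k = O(n^{2+k(l-1)} p^{kl})` for every `k ≥ 1`. -/
def CondD (l : ℕ) (p : ℕ → ℝ) (G : (n : ℕ) → SimpleGraph (Fin n)) : Prop :=
  ∀ k : ℕ, 1 ≤ k →
    (fun n : ℕ => ∑ u : Fin n, ∑ v ∈ Finset.univ.filter (· ≠ u),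
        (pathCount (G n) l u v : ℝ) ^ k) =O[atTop]
      (fun n : ℕ => (n : ℝ) ^ (2 + k * (l - 1)) * (p n) ^ (k * l))

/-- The theta-graph condition: `s_p(H_{k,l},G_n) = O(1)` for every `k ≥ 1`. -/
def CondTheta (l : ℕ) (p : ℕ → ℝ) (G : (n : ℕ) → SimpleGraph (Fin n)) : Prop :=
  ∀ k : ℕ, 1 ≤ k →
    (fun n : ℕ => sp (theta k l) (G n) (p n)) =O[atTop] (fun _ : ℕ => (1 : ℝ))

end Pool.Agent.Lib.MP_cf0832_co
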