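import Mathlib

/-!
The point-line incidence structure on `(ZMod q)^3`: point `(a,b,c)` and line `(k,l,w)` are incident
iff `b + l = a k` and `c + w = a l` (affine part of a generalized quadrangle), and its mixing
property.
-/

namespace Pool.Agent.Lib.MP_cf0832_co

open Finset

/-- Points and lines are triples. -/
abbrev Q3 (q : ℕ) := ZMod q × ZMod q × ZMod q

/-- Incidence. -/
def inc {q : ℕ} (P L : Q3 q) : Prop :=
  P.2.1 + L.2.1 = P.1 * L.1 ∧ P.2.2 + L.2.2 = P.1 * L.2.1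

instance {q : ℕ} (P L : Q3 q) : Decidable (inc P L) := by unfold inc; infer_instance

/-- The line of slope `k` through `P`. -/
def lt {q : ℕ} (P : Q3 q) (k : ZMod q) : Q3 q :=
  (k, P.1 * k - P.2.1, P.1 * (P.1 * k - P.2.1) - P.2.2)

/-- The point with first coordinate `a` on `L`. -/
def pt {q : ℕ} (L : Q3 q) (a : ZMod q) : Q3 q :=
  (a, a * L.1 - L.2.1, a * L.2.1 - L.2.2)

theorem inc_iff_lt {q : ℕ} (P L : Q3 q) : inc P L ↔ L = lt P L.1 := by
  obtain ⟨a, b, c⟩ := P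
  obtain ⟨k, l, w⟩ := L
  simp only [inc, lt, Prod.mk.injEq, true_and]
  constructor
  · rintro ⟨h1, h2⟩
    have h3 : l = a * k - b := by linear_combination h1
    refine ⟨h3, ?_⟩
    rw [← h3]
    linear_combination h2
  · rintro ⟨h1, h2⟩
    rw [← h1] at h2
    exact ⟨by linear_combination h1, by linear_combination h2⟩

theorem inc_iff_pt {q : ℕ} (P L : Q3 q) : inc P L ↔ P = pt L P.1 := by
  obtain ⟨a, b, c⟩ := P
  obtain ⟨k, l, w⟩ := L
  simp only [inc, pt, Prod.mk.injEq, true_and]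
  constructor
  · rintro ⟨h1, h2⟩
    exact ⟨by linear_combination h1, by linear_combination h2⟩
  · rintro ⟨h1, h2⟩
    exact ⟨by linear_combination h1, by linear_combination h2⟩

/-- Any two paths of length three from a point to a line coincide. -/
theorem path_unique {q : ℕ} [Fact q.Prime] {P L L1 P1 L2 P2 : Q3 q}
    (h1 : inc P L1) (h2 : inc P1 L1) (h3 : inc P1 L) (hP1 : P1 ≠ P) (hL1 : L1 ≠ L)
    (g1 : inc P L2) (g2 : inc P2 L2) (g3 : inc P2 L) :
    (P2 ≠ P) → (L2 ≠ L) → L1 = L2 ∧ P1 = P2 := by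
  intro hP2 hL2
  -- key facts for any such path
  have key : ∀ L1 P1 : Q3 q, inc P L1 → inc P1 L1 → inc P1 L →
      (P1.1 - P.1) * (L.1 - L1.1) = P.2.1 + L.2.1 - P.1 * L.1 ∧
      (P1.1 - P.1) * (P.2.1 + L.2.1 - P.1 * L.1) =
        P.2.2 + L.2.2 - P.1 * L.2.1 - P.1 * (P.2.1 + L.2.1 - P.1 * L.1) := by
    rintro ⟨k1, l1, w1⟩ ⟨a1, b1, c1⟩ ⟨h1, h1'⟩ ⟨h2, h2'⟩ ⟨h3, h3'⟩
    simp only at h1 h1' h2 h2' h3 h3' ⊢
    have e1 : (a1 - P.1) * (L.1 - k1) = P.2.1 + L.2.1 - P.1 * L.1 := by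
      linear_combination h2 - h1 - h3
    refine ⟨e1, ?_⟩
    have e2 : (a1 - P.1) * (L.2.1 - l1) = P.2.2 + L.2.2 - P.1 * L.2.1 := by
      linear_combination h2' - h1' - h3'
    have e3 : L.2.1 - l1 = (P.2.1 + L.2.1 - P.1 * L.1) + P.1 * (L.1 - k1) := by
      linear_combination - h1
    rw [e3] at e2
    linear_combination e2 - P.1 * e1
  have nz : ∀ L1 P1 : Q3 q, inc P L1 → inc P1 L1 → inc P1 L → P1 ≠ P → L1 ≠ L →
      P.2.1 + L.2.1 - P.1 * L.1 ≠ 0 := by
    intro L1 P1 h1 h2 h3 hP hL h0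
    obtain ⟨e1, e2⟩ := key L1 P1 h1 h2 h3
    rw [h0] at e1 e2
    rcases mul_eq_zero.1 e1 with hz | hz
    · apply hP
      have ha : P1.1 = P.1 := sub_eq_zero.1 hz
      rw [inc_iff_pt] at h1 h2
      rw [h2, h1, ha]
    · apply hL
      have hk : L1.1 = L.1 := (sub_eq_zero.1 hz).symm
      have hi : inc P L := by
        refine ⟨sub_eq_zero.1 h0, ?_⟩
        have : P.2.2 + L.2.2 - P.1 * L.2.1 = 0 := by linear_combination - e2
        exact sub_eq_zero.1 this
      rw [inc_iff_lt] at h1 hi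
      rw [h1, hi, hk]
  have hE := nz L1 P1 h1 h2 h3 hP1 hL1
  obtain ⟨e1, e2⟩ := key L1 P1 h1 h2 h3
  obtain ⟨f1, f2⟩ := key L2 P2 g1 g2 g3
  have hd : P1.1 = P2.1 := by
    have : (P1.1 - P.1) * (P.2.1 + L.2.1 - P.1 * L.1) =
        (P2.1 - P.1) * (P.2.1 + L.2.1 - P.1 * L.1) := by rw [e2, f2]
    have := mul_right_cancel₀ hE this
    linear_combination this
  have hd0 : P1.1 - P.1 ≠ 0 := by
    intro h
    rw [h, zero_mul] at e1
    exact hE e1.symm
  have hk : L1.1 = L2.1 := by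
    have : (P1.1 - P.1) * (L.1 - L1.1) = (P1.1 - P.1) * (L.1 - L2.1) := by
      rw [e1, ← f1, hd]
    have := mul_left_cancel₀ hd0 this
    linear_combination - this
  have hL : L1 = L2 := by
    rw [inc_iff_lt] at h1 g1
    rw [h1, g1, hk]
  refine ⟨hL, ?_⟩
  rw [inc_iff_pt] at h2 g2
  rw [h2, g2, hd, hL]

section Sums

variable {q : ℕ} [Fact q.Prime]

/-- Incidence indicator. -/
def N (P L : Q3 q) : ℝ := if inc P L then 1 else 0

theorem sum_N_left (P : Q3 q) (g : Q3 q → ℝ) : ∑ L, N P L * g L = ∑ k, g (lt P k) := by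
  have h : ∀ L : Q3 q, N P L * g L = if L = lt P L.1 then g L else 0 := by
    intro L
    unfold N
    by_cases h : inc P L
    · rw [if_pos h, if_pos ((inc_iff_lt P L).1 h), one_mul]
    · rw [if_neg h, if_neg (fun h' => h ((inc_iff_lt P L).2 h')), zero_mul]
  simp only [h]
  rw [← Finset.sum_filter]
  symm
  apply Finset.sum_bij (fun k _ => lt P k)
  · intro k _
    exact mem_filter.2 ⟨mem_univ _, by simp [lt]⟩
  · intro k _ k' _ hk
    simpa [lt] using congrArg Prod.fst hk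
  · intro L hL
    exact ⟨L.1, mem_univ _, (mem_filter.1 hL).2.symm⟩
  · intro k _
    rfl

theorem sum_N_right (L : Q3 q) (g : Q3 q → ℝ) : ∑ P, N P L * g P = ∑ a, g (pt L a) := by
  have h : ∀ P : Q3 q, N P L * g P = if P = pt L P.1 then g P else 0 := by
    intro P
    unfold N
    by_cases h : inc P L
    · rw [if_pos h, if_pos ((inc_iff_pt P L).1 h), one_mul]
    · rw [if_neg h, if_neg (fun h' => h ((inc_iff_pt P L).2 h')), zero_mul]
  simp only [h]
  rw [← Finset.sum_filter]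
  symm
  apply Finset.sum_bij (fun a _ => pt L a)
  · intro a _
    exact mem_filter.2 ⟨mem_univ _, by simp [pt]⟩
  · intro a _ a' _ ha
    simpa [pt] using congrArg Prod.fst ha
  · intro P hP
    exact ⟨P.1, mem_univ _, (mem_filter.1 hP).2.symm⟩
  · intro a _
    rfl

theorem card_zmod : Fintype.card (ZMod q) = q := ZMod.card q

theorem card_Q3 : Fintype.card (Q3 q) = q ^ 3 := by
  simp only [Fintype.card_prod, ZMod.card]
  ring

theorem sum_N_one_left (P : Q3 q) : ∑ L, N P L = q := by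
  have := sum_N_left P (fun _ => (1 : ℝ))
  simp only [mul_one] at this
  rw [this]
  simp

theorem sum_N_one_right (L : Q3 q) : ∑ P, N P L = q := by
  have := sum_N_right L (fun _ => (1 : ℝ))
  simp only [mul_one] at this
  rw [this]
  simp

/-- Number of walks of length three from a point to a line. -/
noncomputable def W (P L : Q3 q) : ℝ := ∑ k, ∑ a, N (pt (lt P k) a) L

/-- `E1`. -/
def E1 (P L : Q3 q) : ZMod q := P.2.1 + L.2.1 - P.1 * L.1

/-- `E2`. -/
def E2 (P L : Q3 q) : ZMod q := P.2.2 + L.2.2 - P.1 * L.2.1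

theorem inc_iff_E (P L : Q3 q) : inc P L ↔ E1 P L = 0 ∧ E2 P L = 0 := by
  unfold inc E1 E2
  rw [sub_eq_zero, sub_eq_zero]

theorem inc_walk (P L : Q3 q) (k a : ZMod q) :
    inc (pt (lt P k) a) L ↔ (a - P.1) * (L.1 - k) = E1 P L ∧
      (a - P.1) * E1 P L = E2 P L - P.1 * E1 P L := by
  obtain ⟨x, b, c⟩ := P
  obtain ⟨k', l, w⟩ := L
  simp only [inc, pt, lt, E1, E2]
  constructor
  · rintro ⟨h1, h2⟩
    exact ⟨by linear_combination -h1, by linear_combination x * h1 - h2⟩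
  · rintro ⟨h1, h2⟩
    exact ⟨by linear_combination -h1, by linear_combination -x * h1 - h2⟩

theorem W_eq_card (P L : Q3 q) : W P L =
    ((Finset.univ.filter (fun x : ZMod q × ZMod q => (x.2 - P.1) * (L.1 - x.1) = E1 P L ∧
      (x.2 - P.1) * E1 P L = E2 P L - P.1 * E1 P L)).card : ℝ) := by
  unfold W N
  rw [← Fintype.sum_prod_type' (f := fun k a => if inc (pt (lt P k) a) L then (1 : ℝ) else 0)]
  rw [Finset.card_filter, Nat.cast_sum]
  apply Finset.sum_congr rfl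
  intro x _
  simp only [inc_walk]
  push_cast
  rfl

/-- The defect `Z = 1 + (2q-1) N - W`. -/
noncomputable def Z (P L : Q3 q) : ℝ := 1 + (2 * q - 1) * N P L - W P L

theorem W_generic (P L : Q3 q) (h1 : E1 P L ≠ 0) (h2 : E2 P L - P.1 * E1 P L ≠ 0) :
    W P L = 1 := by
  rw [W_eq_card]
  norm_cast
  rw [Finset.card_eq_one]
  have hd : (E2 P L - P.1 * E1 P L) / E1 P L ≠ 0 := div_ne_zero h2 h1
  refine ⟨(L.1 - E1 P L / ((E2 P L - P.1 * E1 P L) / E1 P L),
    P.1 + (E2 P L - P.1 * E1 P L) / E1 P L), ?_⟩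
  ext x
  rw [mem_filter, mem_singleton, Prod.ext_iff]
  simp only [mem_univ, true_and]
  constructor
  · rintro ⟨e1, e2⟩
    have e3 : x.2 - P.1 = (E2 P L - P.1 * E1 P L) / E1 P L := by
      rw [eq_div_iff h1]; exact e2
    refine ⟨?_, by linear_combination e3⟩
    rw [e3] at e1
    have e4 : L.1 - x.1 = E1 P L / ((E2 P L - P.1 * E1 P L) / E1 P L) := by
      rw [eq_div_iff hd, mul_comm]; exact e1
    linear_combination - e4
  · rintro ⟨e1, e2⟩
    rw [e1, e2]
    have e3 : P.1 + (E2 P L - P.1 * E1 P L) / E1 P L - P.1 =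
      (E2 P L - P.1 * E1 P L) / E1 P L := by ring
    rw [e3]
    refine ⟨?_, div_mul_cancel₀ _ h1⟩
    rw [sub_sub_cancel]
    exact mul_div_cancel₀ _ hd

theorem W_inc (P L : Q3 q) (h1 : E1 P L = 0) (h2 : E2 P L = 0) : W P L = 2 * q - 1 := by
  rw [W_eq_card, h1, h2]
  simp only [mul_zero, sub_zero, and_true]
  have hset : (Finset.univ.filter (fun x : ZMod q × ZMod q => (x.2 - P.1) * (L.1 - x.1) = 0)) =
      (Finset.univ.image (fun k : ZMod q => (k, P.1))) ∪
        ((Finset.univ.erase P.1).image (fun a : ZMod q => (L.1, a))) := by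
    ext x
    simp only [mem_filter, mem_univ, true_and, mem_union, mem_image, mem_erase, mul_eq_zero,
      Prod.ext_iff, and_true]
    constructor
    · intro h
      by_cases ha : x.2 = P.1
      · left; exact ⟨x.1, rfl, ha.symm⟩
      · right
        rcases h with h | h
        · exact absurd (sub_eq_zero.1 h) ha
        · exact ⟨x.2, ha, sub_eq_zero.1 h, rfl⟩
    · rintro (⟨k, h1, h2⟩ | ⟨a, h1, h2, h3⟩)
      · left; rw [← h2]; ring
      · right; rw [h2]; ring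
  rw [hset, Finset.card_union_of_disjoint, Finset.card_image_of_injective,
    Finset.card_image_of_injective, Finset.card_erase_of_mem (mem_univ _), Finset.card_univ,
    ZMod.card]
  · have hq : 1 ≤ q := (Fact.out : q.Prime).one_lt.le
    push_cast [Nat.cast_sub hq]
    ring
  · intro a b h; simpa using congrArg Prod.snd h
  · intro a b h; simpa using congrArg Prod.fst h
  · rw [Finset.disjoint_left]
    intro x hx hx'
    simp only [mem_image, mem_univ, true_and, mem_erase] at hx hx'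
    obtain ⟨k, rfl⟩ := hx
    obtain ⟨a, ⟨ha, _⟩, h⟩ := hx'
    exact ha (congrArg Prod.snd h)

theorem W_zero (P L : Q3 q) (h1 : E1 P L = 0) (h2 : E2 P L ≠ 0) : W P L = 0 := by
  rw [W_eq_card, h1]
  norm_cast
  rw [Finset.card_eq_zero, Finset.filter_eq_empty_iff]
  intro x _
  simp only [mul_zero, sub_zero]
  exact fun h => h2 h.2.symm

theorem W_zero' (P L : Q3 q) (h1 : E1 P L ≠ 0) (h2 : E2 P L - P.1 * E1 P L = 0) :
    W P L = 0 := by
  rw [W_eq_card, h2]
  norm_cast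
  rw [Finset.card_eq_zero, Finset.filter_eq_empty_iff]
  rintro x _ ⟨e1, e2⟩
  rcases mul_eq_zero.1 e2 with h | h
  · rw [h, zero_mul] at e1; exact h1 e1.symm
  · exact h1 h

theorem abs_Z_le (P L : Q3 q) : |Z P L| ≤ (if E1 P L = 0 then 1 else 0) +
    (if E2 P L - P.1 * E1 P L = 0 then 1 else 0) := by
  unfold Z
  have hN : N P L = if E1 P L = 0 ∧ E2 P L = 0 then 1 else 0 := by
    unfold N
    simp only [inc_iff_E]
  rw [hN]
  by_cases h1 : E1 P L = 0
  · by_cases h2 : E2 P L = 0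
    · rw [W_inc P L h1 h2, if_pos ⟨h1, h2⟩, if_pos h1, if_pos (by rw [h1, h2]; ring)]
      have : (1 : ℝ) + (2 * q - 1) * 1 - (2 * q - 1) = 1 := by ring
      rw [this]; norm_num
    · rw [W_zero P L h1 h2, if_neg (fun h => h2 h.2), if_pos h1]
      have : (1 : ℝ) + (2 * q - 1) * 0 - 0 = 1 := by ring
      rw [this]
      split_ifs <;> norm_num
  · by_cases h2 : E2 P L - P.1 * E1 P L = 0
    · rw [W_zero' P L h1 h2, if_neg (fun h => h1 h.1), if_neg h1, if_pos h2]
      norm_num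
    · rw [W_generic P L h1 h2, if_neg (fun h => h1 h.1), if_neg h1, if_neg h2]
      norm_num

theorem sum_E1 : ∑ P : Q3 q, ∑ L : Q3 q, (if E1 P L = 0 then (1 : ℝ) else 0) = (q : ℝ) ^ 5 := by
  have h : ∀ P : Q3 q, ∑ L : Q3 q, (if E1 P L = 0 then (1 : ℝ) else 0) = (q : ℝ) ^ 2 := by
    intro P
    have h1 : ∀ L : Q3 q, (if E1 P L = 0 then (1 : ℝ) else 0) =
        if L.2.1 = P.1 * L.1 - P.2.1 then 1 else 0 := by
      intro L
      congr 1
      rw [eq_iff_iff]
      unfold E1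
      constructor
      · intro h; linear_combination h
      · intro h; linear_combination h
    simp only [h1]
    rw [Fintype.sum_prod_type]
    simp only [Fintype.sum_prod_type]
    have h2 : ∀ x y : ZMod q, ∑ _z : ZMod q, (if y = P.1 * x - P.2.1 then (1 : ℝ) else 0) =
        if y = P.1 * x - P.2.1 then (q : ℝ) else 0 := by
      intro x y
      split_ifs <;> simp
    simp only [h2, Finset.sum_ite_eq', mem_univ, if_true]
    rw [Finset.sum_const, Finset.card_univ, ZMod.card, nsmul_eq_mul]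
    ring
  simp only [h]
  rw [Finset.sum_const, Finset.card_univ, card_Q3]
  simp only [nsmul_eq_mul]
  push_cast
  ring

theorem sum_E2 : ∑ P : Q3 q, ∑ L : Q3 q,
    (if E2 P L - P.1 * E1 P L = 0 then (1 : ℝ) else 0) = (q : ℝ) ^ 5 := by
  have h : ∀ P : Q3 q, ∑ L : Q3 q, (if E2 P L - P.1 * E1 P L = 0 then (1 : ℝ) else 0) =
      (q : ℝ) ^ 2 := by
    intro P
    have h1 : ∀ L : Q3 q, (if E2 P L - P.1 * E1 P L = 0 then (1 : ℝ) else 0) =
        if L.2.2 = P.1 * L.2.1 - P.2.2 + P.1 * (P.2.1 + L.2.1 - P.1 * L.1) then 1 else 0 := by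
      intro L
      congr 1
      rw [eq_iff_iff]
      unfold E2 E1
      constructor
      · intro h; linear_combination h
      · intro h; linear_combination h
    simp only [h1]
    rw [Fintype.sum_prod_type]
    simp only [Fintype.sum_prod_type]
    simp only [Finset.sum_ite_eq', mem_univ, if_true]
    simp only [Finset.sum_const, Finset.card_univ, ZMod.card, nsmul_eq_mul]
    ring
  simp only [h]
  rw [Finset.sum_const, Finset.card_univ, card_Q3]
  simp only [nsmul_eq_mul]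
  push_cast
  ring

theorem sum_abs_Z_le : ∑ P : Q3 q, ∑ L : Q3 q, |Z P L| ≤ 2 * (q : ℝ) ^ 5 := by
  calc ∑ P : Q3 q, ∑ L : Q3 q, |Z P L| ≤ ∑ P : Q3 q, ∑ L : Q3 q,
        ((if E1 P L = 0 then (1 : ℝ) else 0) +
          (if E2 P L - P.1 * E1 P L = 0 then 1 else 0)) :=
        Finset.sum_le_sum fun P _ => Finset.sum_le_sum fun L _ => abs_Z_le P L
    _ = 2 * (q : ℝ) ^ 5 := by
        simp only [Finset.sum_add_distrib]
        rw [sum_E1, sum_E2]
        ring

/-- The transform `h = Nᵀ f`. -/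
noncomputable def tr (f : Q3 q → ℝ) (L : Q3 q) : ℝ := ∑ P, N P L * f P

/-- The transform `N h`. -/
noncomputable def tl (h : Q3 q → ℝ) (P : Q3 q) : ℝ := ∑ L, N P L * h L

theorem tr_eq (f : Q3 q → ℝ) (L : Q3 q) : tr f L = ∑ a, f (pt L a) := sum_N_right L f

theorem tl_eq (h : Q3 q → ℝ) (P : Q3 q) : tl h P = ∑ k, h (lt P k) := sum_N_left P h

theorem abs_tr_le (f : Q3 q → ℝ) (hf : ∀ P, |f P| ≤ 1) (L : Q3 q) : |tr f L| ≤ q := by
  rw [tr_eq]
  calc |∑ a, f (pt L a)| ≤ ∑ a : ZMod q, |f (pt L a)| := Finset.abs_sum_le_sum_abs _ _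
    _ ≤ ∑ _a : ZMod q, (1 : ℝ) := Finset.sum_le_sum fun a _ => hf _
    _ = q := by simp

theorem sum_tr (f : Q3 q → ℝ) : ∑ L, tr f L = q * ∑ P, f P := by
  unfold tr
  rw [Finset.sum_comm, Finset.mul_sum]
  apply Finset.sum_congr rfl
  intro P _
  rw [← Finset.sum_mul, sum_N_one_left]

theorem sum_mul_tr (f h : Q3 q → ℝ) : ∑ L, h L * tr f L = ∑ P, f P * tl h P := by
  unfold tr tl
  simp only [Finset.mul_sum]
  rw [Finset.sum_comm]
  apply Finset.sum_congr rfl
  intro P _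
  apply Finset.sum_congr rfl
  intro L _
  ring

/-- `N Nᵀ N = W`. -/
theorem tr_tl_tr (f : Q3 q → ℝ) (L : Q3 q) : tr (tl (tr f)) L = ∑ P, W P L * f P := by
  have h1 : tr (tl (tr f)) L = ∑ P', ∑ L', ∑ P, N P' L * (N P' L' * (N P L' * f P)) := by
    unfold tr tl
    simp only [Finset.mul_sum]
  rw [h1]
  have h2 : ∀ P, W P L * f P = ∑ P', ∑ L', N P' L * (N P' L' * (N P L' * f P)) := by
    intro P
    have e1 : W P L = ∑ L', N P L' * ∑ P', N P' L' * N P' L := by
      rw [sum_N_left P (fun L' => ∑ P', N P' L' * N P' L)]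
      unfold W
      apply Finset.sum_congr rfl
      intro k _
      rw [sum_N_right (lt P k) (fun P' => N P' L)]
    rw [e1, Finset.sum_mul, Finset.sum_comm]
    apply Finset.sum_congr rfl
    intro L' _
    rw [Finset.mul_sum, Finset.sum_mul]
    apply Finset.sum_congr rfl
    intro P' _
    ring
  simp only [h2]
  rw [Finset.sum_comm]
  conv_lhs =>
    enter [2, L']
    rw [Finset.sum_comm]
  rw [Finset.sum_comm]
  apply Finset.sum_congr rfl
  intro P _
  rw [Finset.sum_comm]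

theorem sum_tr_sq_le (f : Q3 q → ℝ) (hf : ∀ P, |f P| ≤ 1) :
    ∑ L, (tr f L) ^ 2 ≤ (q : ℝ) ^ 5 := by
  calc ∑ L, (tr f L) ^ 2 ≤ ∑ _L : Q3 q, (q : ℝ) ^ 2 := by
        apply Finset.sum_le_sum
        intro L _
        rw [← sq_abs]
        exact pow_le_pow_left₀ (abs_nonneg _) (abs_tr_le f hf L) 2
    _ = (q : ℝ) ^ 5 := by
        rw [Finset.sum_const, Finset.card_univ, card_Q3, nsmul_eq_mul]
        push_cast
        ring

theorem sum_tl_tr_sq_le (f : Q3 q → ℝ) (hf : ∀ P, |f P| ≤ 1) (h0 : ∑ P, f P = 0) :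
    ∑ P, (tl (tr f) P) ^ 2 ≤ 4 * (q : ℝ) ^ 6 := by
  have hq0 : (0 : ℝ) ≤ q := Nat.cast_nonneg q
  have hq1 : (1 : ℝ) ≤ q := by exact_mod_cast (Fact.out : q.Prime).one_lt.le
  have e1 : ∑ P, (tl (tr f) P) ^ 2 = ∑ L, tr f L * ∑ P, W P L * f P := by
    have : ∑ P, (tl (tr f) P) ^ 2 = ∑ P, tl (tr f) P * tl (tr f) P :=
      Finset.sum_congr rfl fun P _ => sq _
    rw [this, ← sum_mul_tr]
    apply Finset.sum_congr rfl
    intro L _
    rw [tr_tl_tr]
  have e2 : ∀ L, tr f L * ∑ P, W P L * f P =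
      (2 * q - 1) * (tr f L) ^ 2 + tr f L * (∑ P, f P) - ∑ P, Z P L * f P * tr f L := by
    intro L
    have : ∀ P, W P L * f P = f P + (2 * q - 1) * (N P L * f P) - Z P L * f P := by
      intro P; unfold Z; ring
    simp only [this]
    rw [Finset.sum_sub_distrib, Finset.sum_add_distrib, ← Finset.mul_sum]
    have h3 : ∑ P, N P L * f P = tr f L := rfl
    rw [h3, ← Finset.sum_mul]
    ring
  rw [e1]
  simp only [e2, h0, mul_zero, add_zero]
  rw [Finset.sum_sub_distrib, ← Finset.mul_sum]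
  have e3 : |∑ L, ∑ P, Z P L * f P * tr f L| ≤ 2 * (q : ℝ) ^ 6 := by
    calc |∑ L, ∑ P, Z P L * f P * tr f L| ≤ ∑ L, ∑ P, |Z P L| * q := by
          refine le_trans (Finset.abs_sum_le_sum_abs _ _) (Finset.sum_le_sum fun L _ => ?_)
          refine le_trans (Finset.abs_sum_le_sum_abs _ _) (Finset.sum_le_sum fun P _ => ?_)
          rw [abs_mul, abs_mul]
          have h1 := hf P
          have h2 := abs_tr_le f hf L
          calc |Z P L| * |f P| * |tr f L| ≤ |Z P L| * 1 * q := by gcongr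
            _ = |Z P L| * q := by ring
      _ = (∑ P, ∑ L, |Z P L|) * q := by
          rw [Finset.sum_comm]
          simp only [Finset.sum_mul]
      _ ≤ (2 * (q : ℝ) ^ 5) * q := mul_le_mul_of_nonneg_right sum_abs_Z_le hq0
      _ = 2 * (q : ℝ) ^ 6 := by ring
  have e4 := sum_tr_sq_le f hf
  have e5 := (abs_le.1 e3).1
  have e6 : (2 * (q : ℝ) - 1) * ∑ L, (tr f L) ^ 2 ≤ (2 * q - 1) * (q : ℝ) ^ 5 :=
    mul_le_mul_of_nonneg_left e4 (by linarith)
  have e7 : (2 * (q : ℝ) - 1) * (q : ℝ) ^ 5 ≤ 2 * (q : ℝ) ^ 6 := by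
    have : (0 : ℝ) ≤ (q : ℝ) ^ 5 := by positivity
    nlinarith
  linarith

theorem sum_tr_sq_sq_le (f : Q3 q → ℝ) (hf : ∀ P, |f P| ≤ 1) (h0 : ∑ P, f P = 0) :
    (∑ L, (tr f L) ^ 2) ^ 2 ≤ 4 * (q : ℝ) ^ 9 := by
  have e1 : ∑ L, (tr f L) ^ 2 = ∑ P, f P * tl (tr f) P := by
    rw [← sum_mul_tr]
    exact Finset.sum_congr rfl fun L _ => sq _
  rw [e1]
  have e2 := Finset.sum_mul_sq_le_sq_mul_sq Finset.univ f (tl (tr f))
  have e3 : ∑ P, f P ^ 2 ≤ (q : ℝ) ^ 3 := by
    calc ∑ P, f P ^ 2 ≤ ∑ _P : Q3 q, (1 : ℝ) := by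
          apply Finset.sum_le_sum
          intro P _
          rw [← sq_abs]
          exact pow_le_one₀ (abs_nonneg _) (hf P)
      _ = (q : ℝ) ^ 3 := by
          rw [Finset.sum_const, Finset.card_univ, card_Q3, nsmul_eq_mul]
          push_cast
          ring
  have e4 := sum_tl_tr_sq_le f hf h0
  calc (∑ P, f P * tl (tr f) P) ^ 2 ≤ (∑ P, f P ^ 2) * ∑ P, (tl (tr f) P) ^ 2 := e2
    _ ≤ (q : ℝ) ^ 3 * (4 * (q : ℝ) ^ 6) :=
        mul_le_mul e3 e4 (Finset.sum_nonneg fun _ _ => sq_nonneg _) (by positivity)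
    _ = 4 * (q : ℝ) ^ 9 := by ring

/-- **Mixing**: for `F, G : F_q^3 → [0,1]` the number of incidences weighted by `F, G` is
`q^{-2} (∑ F) (∑ G)` up to an error of order `q^{15/4}`. -/
theorem mixing (F G : Q3 q → ℝ) (hF : ∀ P, 0 ≤ F P ∧ F P ≤ 1) (hG : ∀ P, 0 ≤ G P ∧ G P ≤ 1) :
    (∑ P, ∑ L, N P L * F P * G L - (∑ P, F P) * (∑ L, G L) / (q : ℝ) ^ 2) ^ 4 ≤
      4 * (q : ℝ) ^ 15 := by
  have hq1 : (1 : ℝ) ≤ q := by exact_mod_cast (Fact.out : q.Prime).one_lt.le
  have hq0 : (0 : ℝ) < q := by linarith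
  set μ : ℝ := (∑ P, F P) / (q : ℝ) ^ 3 with hμ
  have hsum0 : 0 ≤ ∑ P, F P := Finset.sum_nonneg fun P _ => (hF P).1
  have hsum1 : ∑ P, F P ≤ (q : ℝ) ^ 3 := by
    calc ∑ P, F P ≤ ∑ _P : Q3 q, (1 : ℝ) := Finset.sum_le_sum fun P _ => (hF P).2
      _ = (q : ℝ) ^ 3 := by
          rw [Finset.sum_const, Finset.card_univ, card_Q3, nsmul_eq_mul]
          push_cast
          ring
  have hμ0 : 0 ≤ μ := div_nonneg hsum0 (by positivity)
  have hμ1 : μ ≤ 1 := by
    rw [hμ, div_le_one (by positivity)]; exact hsum1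
  set f : Q3 q → ℝ := fun P => F P - μ with hf
  have hf1 : ∀ P, |f P| ≤ 1 := by
    intro P
    rw [abs_le]
    have := hF P
    constructor <;> simp only [hf] <;> linarith
  have hf0 : ∑ P, f P = 0 := by
    simp only [hf]
    rw [Finset.sum_sub_distrib, Finset.sum_const, Finset.card_univ, card_Q3, nsmul_eq_mul, hμ]
    push_cast
    field_simp
    ring
  have e1 : ∑ P, ∑ L, N P L * F P * G L - (∑ P, F P) * (∑ L, G L) / (q : ℝ) ^ 2 =
      ∑ L, G L * tr f L := by
    have h1 : ∀ L, G L * tr f L = ∑ P, N P L * F P * G L - μ * q * G L := by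
      intro L
      unfold tr
      simp only [hf, mul_sub]
      rw [Finset.sum_sub_distrib, ← Finset.sum_mul, sum_N_one_right, mul_sub, Finset.mul_sum]
      congr 1
      · apply Finset.sum_congr rfl
        intro P _
        ring
      · ring
    simp only [h1]
    rw [Finset.sum_sub_distrib, ← Finset.mul_sum, Finset.sum_comm, hμ]
    congr 1
    field_simp
  rw [e1]
  have e2 := Finset.sum_mul_sq_le_sq_mul_sq Finset.univ G (tr f)
  have e3 : ∑ L, G L ^ 2 ≤ (q : ℝ) ^ 3 := by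
    calc ∑ L, G L ^ 2 ≤ ∑ _L : Q3 q, (1 : ℝ) := by
          apply Finset.sum_le_sum
          intro L _
          exact pow_le_one₀ (hG L).1 (hG L).2
      _ = (q : ℝ) ^ 3 := by
          rw [Finset.sum_const, Finset.card_univ, card_Q3, nsmul_eq_mul]
          push_cast
          ring
  have e4 := sum_tr_sq_sq_le f hf1 hf0
  have e5 : 0 ≤ ∑ L, (tr f L) ^ 2 := Finset.sum_nonneg fun _ _ => sq_nonneg _
  calc (∑ L, G L * tr f L) ^ 4 = ((∑ L, G L * tr f L) ^ 2) ^ 2 := by ring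
    _ ≤ ((∑ L, G L ^ 2) * ∑ L, (tr f L) ^ 2) ^ 2 := pow_le_pow_left₀ (sq_nonneg _) e2 2
    _ = (∑ L, G L ^ 2) ^ 2 * (∑ L, (tr f L) ^ 2) ^ 2 := by ring
    _ ≤ ((q : ℝ) ^ 3) ^ 2 * (4 * (q : ℝ) ^ 9) := by
        apply mul_le_mul _ e4 (by positivity) (by positivity)
        exact pow_le_pow_left₀ (Finset.sum_nonneg fun _ _ => sq_nonneg _) e3 2
    _ = 4 * (q : ℝ) ^ 15 := by ring

end Sums

end Pool.Agent.Lib.MP_cf0832_co
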