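import Pool.Agent.Lib.MP_cf0832_co.Defs
import Pool.Agent.Lib.MP_cf0832_co.Mixing

/-!
The counterexample graphs: a planted structure on the first `2 t^3 + 3` vertices and a
point-line graph on the others.
-/

namespace Pool.Agent.Lib.MP_cf0832_co

open Finset

/-- Planted edges (`i < j`): `0 ~ 1`; `1` is joined to the vertices `3, ..., 2 + t^3`; `2` is joined
to `3 + t^3, ..., 2 + 2 t^3`; these two sets are split in `t^2` blocks of size `t` and blocks with
the same number are completely joined. -/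
def relPL (t i j : ℕ) : Prop :=
  (i = 0 ∧ j = 1) ∨ (i = 1 ∧ 3 ≤ j ∧ j < 3 + t ^ 3) ∨
  (i = 2 ∧ 3 + t ^ 3 ≤ j ∧ j < 3 + 2 * t ^ 3) ∨
  (3 ≤ i ∧ i < 3 + t ^ 3 ∧ 3 + t ^ 3 ≤ j ∧ j < 3 + 2 * t ^ 3 ∧ (i - 3) / t = (j - 3 - t ^ 3) / t)

/-- The vector attached to a number: its digits to base `q`. -/
def vec (q i : ℕ) : Q3 q := ((i : ZMod q), ((i / q : ℕ) : ZMod q), ((i / q ^ 2 : ℕ) : ZMod q))

/-- Background edges: the numbers in `[2 t^3 + 3, n/2)` are points, those in `[n/2, n)` are lines. -/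
def relBG (n q t i j : ℕ) : Prop :=
  2 * t ^ 3 + 3 ≤ i ∧ i < n / 2 ∧ n / 2 ≤ j ∧ inc (vec q i) (vec q j)

/-- The graph. -/
def gr (n q t : ℕ) : SimpleGraph (Fin n) :=
  SimpleGraph.fromRel (fun i j => relPL t i j ∨ relBG n q t i j)

theorem vec_inj {q i j : ℕ} (hq : 0 < q) (hi : i < q ^ 3) (hj : j < q ^ 3)
    (h : vec q i = vec q j) : i = j := by
  haveI : NeZero q := ⟨hq.ne'⟩
  simp only [vec, Prod.mk.injEq, ZMod.natCast_eq_natCast_iff'] at h
  obtain ⟨h1, h2, h3⟩ := h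
  have key : ∀ i : ℕ, i < q ^ 3 → i = i % q + q * ((i / q) % q) + q ^ 2 * ((i / q ^ 2) % q) := by
    intro i hi
    have e1 : i / q ^ 2 < q := by
      rw [Nat.div_lt_iff_lt_mul (by positivity)]
      calc i < q ^ 3 := hi
        _ = q * q ^ 2 := by ring
    have e2 : i / q / q = i / q ^ 2 := by rw [Nat.div_div_eq_div_mul, sq]
    have e3 := Nat.div_add_mod i q
    have e4 := Nat.div_add_mod (i / q) q
    rw [e2] at e4
    rw [Nat.mod_eq_of_lt e1]
    calc i = q * (i / q) + i % q := e3.symm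
      _ = q * (q * (i / q ^ 2) + i / q % q) + i % q := by rw [e4]
      _ = _ := by ring
  rw [key i hi, key j hj, h1, h2, h3]

section

variable {n q t : ℕ}

theorem relPL_lt {i j : ℕ} (h : relPL t i j) : i < j ∧ j < 2 * t ^ 3 + 3 := by
  unfold relPL at h
  rcases h with ⟨h1, h2⟩ | ⟨h1, h2, h3⟩ | ⟨h1, h2, h3⟩ | ⟨h1, h2, h3, h4, h5⟩ <;> omega

theorem relBG_lt {i j : ℕ} (h : relBG n q t i j) : i < j := by
  unfold relBG at h
  omega

theorem adj_iff (i j : Fin n) : (gr n q t).Adj i j ↔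
    (relPL t i j ∨ relBG n q t i j) ∨ (relPL t j i ∨ relBG n q t j i) := by
  unfold gr
  rw [SimpleGraph.fromRel_adj]
  constructor
  · exact fun h => h.2
  · intro h
    refine ⟨?_, h⟩
    rintro rfl
    rcases h with (h | h) | (h | h)
    · exact lt_irrefl _ (relPL_lt h).1
    · exact lt_irrefl _ (relBG_lt h)
    · exact lt_irrefl _ (relPL_lt h).1
    · exact lt_irrefl _ (relBG_lt h)

/-- The two parts are not joined. -/
theorem adj_side (hm : 2 * t ^ 3 + 3 ≤ n / 2) {i j : Fin n} (h : (gr n q t).Adj i j) :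
    ((i : ℕ) < 2 * t ^ 3 + 3 ↔ (j : ℕ) < 2 * t ^ 3 + 3) := by
  rw [adj_iff] at h
  rcases h with (h | h) | (h | h)
  · have := relPL_lt h; omega
  · unfold relBG at h; omega
  · have := relPL_lt h; omega
  · unfold relBG at h; omega

/-- Adjacency in the background. -/
theorem adj_bg (hm : 2 * t ^ 3 + 3 ≤ n / 2) {i j : Fin n} (hi : 2 * t ^ 3 + 3 ≤ (i : ℕ))
    (h : (gr n q t).Adj i j) :
    2 * t ^ 3 + 3 ≤ (j : ℕ) ∧ (((i : ℕ) < n / 2 ∧ n / 2 ≤ (j : ℕ) ∧ inc (vec q i) (vec q j)) ∨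
      ((j : ℕ) < n / 2 ∧ n / 2 ≤ (i : ℕ) ∧ inc (vec q j) (vec q i))) := by
  rw [adj_iff] at h
  rcases h with (h | h) | (h | h)
  · have := relPL_lt h; omega
  · unfold relBG at h
    exact ⟨by omega, Or.inl ⟨h.2.1, h.2.2.1, h.2.2.2⟩⟩
  · have := relPL_lt h; omega
  · unfold relBG at h
    exact ⟨h.1, Or.inr ⟨h.2.1, h.2.2.1, h.2.2.2⟩⟩

/-- Adjacency in the planted part. -/
theorem adj_pl (hm : 2 * t ^ 3 + 3 ≤ n / 2) {i j : Fin n} (hi : (i : ℕ) < 2 * t ^ 3 + 3)
    (h : (gr n q t).Adj i j) :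
    (j : ℕ) < 2 * t ^ 3 + 3 ∧ (relPL t i j ∨ relPL t j i) := by
  rw [adj_iff] at h
  rcases h with (h | h) | (h | h)
  · exact ⟨(relPL_lt h).2, Or.inl h⟩
  · unfold relBG at h; omega
  · refine ⟨?_, Or.inr h⟩
    have := relPL_lt h; omega
  · unfold relBG at h; omega

/-- Uniqueness of paths of length three in the background. -/
theorem bg_path_unique [Fact q.Prime] (hn : n < q ^ 3) (hm : 2 * t ^ 3 + 3 ≤ n / 2)
    {u a b v a' b' : Fin n} (hu : 2 * t ^ 3 + 3 ≤ (u : ℕ))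
    (h1 : (gr n q t).Adj u a) (h2 : (gr n q t).Adj a b) (h3 : (gr n q t).Adj b v)
    (hub : b ≠ u) (hav : a ≠ v)
    (g1 : (gr n q t).Adj u a') (g2 : (gr n q t).Adj a' b') (g3 : (gr n q t).Adj b' v)
    (gub : b' ≠ u) (gav : a' ≠ v) : a = a' ∧ b = b' := by
  have hq : 0 < q := (Fact.out : q.Prime).pos
  have vinj : ∀ x y : Fin n, vec q x = vec q y → x = y := by
    intro x y h
    exact Fin.ext (vec_inj hq (by have := x.2; omega) (by have := y.2; omega) h)
  have vne : ∀ x y : Fin n, x ≠ y → vec q x ≠ vec q y := fun x y h h' => h (vinj x y h')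
  obtain ⟨ha, h1'⟩ := adj_bg hm hu h1
  obtain ⟨hb, h2'⟩ := adj_bg hm ha h2
  obtain ⟨hv, h3'⟩ := adj_bg hm hb h3
  obtain ⟨ha', g1'⟩ := adj_bg hm hu g1
  obtain ⟨hb', g2'⟩ := adj_bg hm ha' g2
  obtain ⟨hv', g3'⟩ := adj_bg hm hb' g3
  by_cases hc : (u : ℕ) < n / 2
  · -- `u` is a point
    have e1 : n / 2 ≤ (a : ℕ) ∧ inc (vec q u) (vec q a) := by
      rcases h1' with h | h
      · exact h.2
      · omega
    have e2 : (b : ℕ) < n / 2 ∧ inc (vec q b) (vec q a) := by
      rcases h2' with h | h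
      · omega
      · exact ⟨h.1, h.2.2⟩
    have e3 : inc (vec q b) (vec q v) := by
      rcases h3' with h | h
      · exact h.2.2
      · omega
    have f1 : n / 2 ≤ (a' : ℕ) ∧ inc (vec q u) (vec q a') := by
      rcases g1' with h | h
      · exact h.2
      · omega
    have f2 : (b' : ℕ) < n / 2 ∧ inc (vec q b') (vec q a') := by
      rcases g2' with h | h
      · omega
      · exact ⟨h.1, h.2.2⟩
    have f3 : inc (vec q b') (vec q v) := by
      rcases g3' with h | h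
      · exact h.2.2
      · omega
    have := path_unique e1.2 e2.2 e3 (vne _ _ hub) (vne _ _ hav) f1.2 f2.2 f3
      (vne _ _ gub) (vne _ _ gav)
    exact ⟨vinj _ _ this.1, vinj _ _ this.2⟩
  · -- `u` is a line
    have e1 : (a : ℕ) < n / 2 ∧ inc (vec q a) (vec q u) := by
      rcases h1' with h | h
      · omega
      · exact ⟨h.1, h.2.2⟩
    have e2 : n / 2 ≤ (b : ℕ) ∧ inc (vec q a) (vec q b) := by
      rcases h2' with h | h
      · exact h.2
      · omega
    have e3 : inc (vec q v) (vec q b) := by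
      rcases h3' with h | h
      · omega
      · exact h.2.2
    have f1 : (a' : ℕ) < n / 2 ∧ inc (vec q a') (vec q u) := by
      rcases g1' with h | h
      · omega
      · exact ⟨h.1, h.2.2⟩
    have f2 : n / 2 ≤ (b' : ℕ) ∧ inc (vec q a') (vec q b') := by
      rcases g2' with h | h
      · exact h.2
      · omega
    have f3 : inc (vec q v) (vec q b') := by
      rcases g3' with h | h
      · omega
      · exact h.2.2
    have := path_unique e3 e2.2 e1.2 (vne _ _ hav) (vne _ _ hub) f3 f2.2 f1.2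
      (vne _ _ gav) (vne _ _ gub)
    exact ⟨vinj _ _ this.2, vinj _ _ this.1⟩

/-- A neighbour of a background vertex is determined by its first coordinate. -/
theorem bg_nbr_unique [Fact q.Prime] (hn : n < q ^ 3) (hm : 2 * t ^ 3 + 3 ≤ n / 2)
    {u a a' : Fin n} (hu : 2 * t ^ 3 + 3 ≤ (u : ℕ))
    (h1 : (gr n q t).Adj u a) (g1 : (gr n q t).Adj u a')
    (h : (vec q a).1 = (vec q a').1) : a = a' := by
  have hq : 0 < q := (Fact.out : q.Prime).pos
  have vinj : ∀ x y : Fin n, vec q x = vec q y → x = y := by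
    intro x y h
    exact Fin.ext (vec_inj hq (by have := x.2; omega) (by have := y.2; omega) h)
  obtain ⟨ha, h1'⟩ := adj_bg hm hu h1
  obtain ⟨ha', g1'⟩ := adj_bg hm hu g1
  apply vinj
  rcases h1' with h1' | h1' <;> rcases g1' with g1' | g1'
  · rw [(inc_iff_lt _ _).1 h1'.2.2, (inc_iff_lt _ _).1 g1'.2.2, h]
  · omega
  · omega
  · rw [(inc_iff_pt _ _).1 h1'.2.2, (inc_iff_pt _ _).1 g1'.2.2, h]

end

end Pool.Agent.Lib.MP_cf0832_co
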