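import Pool.Agent.Lib.MP_cf0832_co.Params

/-!
Convergence of the counterexample graphs to the limit kernel in the cut distance.
-/

namespace Pool.Agent.Lib.MP_cf0832_co

open MeasureTheory Finset Filter Topology
open scoped unitInterval

theorem cutNorm_nonneg (W : I → I → ℝ) : 0 ≤ cutNorm W :=
  Real.iSup_nonneg fun _ => abs_nonneg _

theorem cutNorm_le (W : I → I → ℝ) (B : ℝ)
    (h : ∀ S T : Set I, MeasurableSet S → MeasurableSet T → |∫ z in S ×ˢ T, W z.1 z.2| ≤ B) :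
    cutNorm W ≤ B := by
  have : Nonempty {A : Set I × Set I // MeasurableSet A.1 ∧ MeasurableSet A.2} :=
    ⟨⟨(∅, ∅), MeasurableSet.empty, MeasurableSet.empty⟩⟩
  exact ciSup_le fun A => h A.1.1 A.1.2 A.2.1 A.2.2

theorem dCut_nonneg {n : ℕ} (G : SimpleGraph (Fin n)) (p : ℝ) (κ : I → I → ℝ) : 0 ≤ dCut G p κ :=
  Real.iInf_nonneg fun _ => cutNorm_nonneg _

theorem dCut_le {n : ℕ} (G : SimpleGraph (Fin n)) (p : ℝ) (κ : I → I → ℝ) (B : ℝ)
    (h : ∀ S T : Set I, MeasurableSet S → MeasurableSet T →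
      |∫ z in S ×ˢ T, (kerG G p z.1 z.2 - κ z.1 z.2)| ≤ B) :
    dCut G p κ ≤ B := by
  have hbdd : BddBelow (Set.range fun φ : {φ : I ≃ᵐ I // MeasurePreserving φ} =>
      cutNorm (fun x y => kerG G p x y - κ (φ.1 x) (φ.1 y))) :=
    ⟨0, by rintro _ ⟨φ, rfl⟩; exact cutNorm_nonneg _⟩
  refine (ciInf_le hbdd ⟨MeasurableEquiv.refl I, MeasurePreserving.id _⟩).trans ?_
  exact cutNorm_le _ _ h

/-- The bound. -/
theorem dCut_bound : ∀ᶠ n : ℕ in atTop, dCut (Gn n) (pn n) ker0 ≤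
    2 * Real.sqrt (Real.sqrt (4 * 64 ^ 8 / (qn n : ℝ))) + 103936 / (qn n : ℝ) ^ 2 := by
  filter_upwards [good] with n ⟨h0, h1, h2, h3⟩
  have : Fact (qn n).Prime := ⟨qn_prime n⟩
  have hn' : (0 : ℝ) < n := by exact_mod_cast h0
  have hq1 : (1 : ℝ) ≤ qn n := by exact_mod_cast (qn_prime n).one_lt.le
  have h4 : (qn n : ℝ) ^ 3 ≤ 64 * n := by exact_mod_cast h2
  have hmq : 2 * tn n ^ 3 + 3 ≤ 5 * qn n := by
    have := (tn_bound n).2.1
    have := (qn_prime n).one_lt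
    omega
  apply dCut_le
  intro S T hS hT
  have hb := cut_le h0 h1 h3 h2 S T hS hT (Real.sqrt (Real.sqrt (4 * 64 ^ 8 / (qn n : ℝ))))
    (Real.sqrt_nonneg _) (by
      have e : (Real.sqrt (Real.sqrt (4 * 64 ^ 8 / (qn n : ℝ)))) ^ 4 =
          ((Real.sqrt (Real.sqrt (4 * 64 ^ 8 / (qn n : ℝ)))) ^ 2) ^ 2 := by ring
      rw [e, Real.sq_sqrt (Real.sqrt_nonneg _), Real.sq_sqrt (by positivity)])
  refine hb.trans ?_
  set m : ℕ := 2 * tn n ^ 3 + 3 with hmdef
  have hmq' : (m : ℝ) ≤ 5 * qn n := by exact_mod_cast hmq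
  have e1 : 1 / (n : ℝ) ≤ 64 / (qn n : ℝ) ^ 3 := by
    rw [div_le_div_iff₀ hn' (by positivity)]; linarith
  have e2 : ((m : ℝ) + 1) / n ≤ 384 / (qn n : ℝ) ^ 2 := by
    calc ((m : ℝ) + 1) / n = ((m : ℝ) + 1) * (1 / n) := by ring
      _ ≤ (6 * qn n) * (64 / (qn n : ℝ) ^ 3) := by
          apply mul_le_mul _ e1 (by positivity) (by positivity)
          linarith
      _ = 384 / (qn n : ℝ) ^ 2 := by field_simp; ring
  have e3 : (qn n : ℝ) ^ 2 * (m : ℝ) ^ 2 / n ^ 2 ≤ 102400 / (qn n : ℝ) ^ 2 := by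
    calc (qn n : ℝ) ^ 2 * (m : ℝ) ^ 2 / n ^ 2 = (qn n : ℝ) ^ 2 * (m * (1 / n)) ^ 2 := by ring
      _ ≤ (qn n : ℝ) ^ 2 * ((5 * qn n) * (64 / (qn n : ℝ) ^ 3)) ^ 2 := by gcongr
      _ = 102400 / (qn n : ℝ) ^ 2 := by field_simp; ring
  have e4 : (103936 : ℝ) / (qn n : ℝ) ^ 2 = 4 * (384 / (qn n : ℝ) ^ 2) + 102400 / (qn n : ℝ) ^ 2 := by
    ring
  rw [e4]
  linarith

theorem dCut_tendsto : Tendsto (fun n => dCut (Gn n) (pn n) ker0) atTop (𝓝 0) := by
  have hq : Tendsto (fun n => (qn n : ℝ)) atTop atTop :=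
    tendsto_natCast_atTop_atTop.comp qn_tendsto
  have h1 : Tendsto (fun n => 2 * Real.sqrt (Real.sqrt (4 * 64 ^ 8 / (qn n : ℝ))) +
      103936 / (qn n : ℝ) ^ 2) atTop (𝓝 (2 * Real.sqrt (Real.sqrt 0) + 0)) := by
    apply Tendsto.add
    · apply Tendsto.const_mul
      apply (Real.continuous_sqrt.tendsto _).comp
      apply (Real.continuous_sqrt.tendsto _).comp
      exact hq.const_div_atTop _
    · exact ((tendsto_pow_atTop (by norm_num)).comp hq).const_div_atTop _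
  have h2 : (2 * Real.sqrt (Real.sqrt 0) + 0 : ℝ) = 0 := by simp
  rw [h2] at h1
  exact squeeze_zero' (Eventually.of_forall fun n => dCut_nonneg _ _ _) dCut_bound h1

theorem ker0_isKernel : IsKernel 1 ker0 := by
  refine ⟨?_, ?_, ?_⟩
  · have : Function.uncurry ker0 = fun z : I × I => ind H z.1 * ind Hᶜ z.2 + ind Hᶜ z.1 * ind H z.2 := by
      funext z
      exact ker0_eq z.1 z.2
    rw [this]
    have h1 := measurable_ind measurable_H
    have h2 := measurable_ind measurable_H.compl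
    exact ((h1.comp measurable_fst).mul (h2.comp measurable_snd)).add
      ((h2.comp measurable_fst).mul (h1.comp measurable_snd))
  · intro x y
    unfold ker0
    by_cases hx : (x : ℝ) < 1 / 2 <;> by_cases hy : (y : ℝ) < 1 / 2 <;> simp only [hx, hy] <;> simp
  · intro x y
    unfold ker0
    split_ifs <;> norm_num

theorem vol_H : volume.real H = 1 / 2 := by
  rw [measureReal_def, unitInterval.volume_apply]
  have : Subtype.val '' H = Set.Ico (0 : ℝ) (1 / 2) := by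
    ext x
    constructor
    · rintro ⟨y, hy, rfl⟩
      exact ⟨y.2.1, hy⟩
    · rintro ⟨h1, h2⟩
      exact ⟨⟨x, h1, by linarith⟩, h2, rfl⟩
  rw [this, Real.volume_Ico, ENNReal.toReal_ofReal (by norm_num)]
  norm_num

theorem integral_ker0_pos : ∫ z : I × I, ker0 z.1 z.2 = 1 / 2 := by
  have h := integral_ker0 Set.univ Set.univ
  rw [Set.univ_prod_univ, setIntegral_univ] at h
  rw [h]
  have h1 : volume.real Hᶜ = 1 / 2 := by
    rw [measureReal_compl measurable_H, vol_H]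
    simp
    norm_num
  simp only [Set.univ_inter]
  rw [h1, vol_H]
  norm_num

theorem np_tendsto : Tendsto (fun n : ℕ => (n : ℝ) * pn n) atTop atTop := by
  have hq : Tendsto (fun n => (qn n : ℝ) / 64) atTop atTop :=
    Tendsto.atTop_div_const (by norm_num) (tendsto_natCast_atTop_atTop.comp qn_tendsto)
  apply tendsto_atTop_mono' _ _ hq
  filter_upwards [good] with n ⟨h0, h1, h2, h3⟩
  have hq1 : (1 : ℝ) ≤ qn n := by exact_mod_cast (qn_prime n).one_lt.le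
  have h4 : (qn n : ℝ) ^ 3 ≤ 64 * n := by exact_mod_cast h2
  unfold pn
  rw [mul_one_div, div_le_div_iff₀ (by norm_num) (by positivity)]
  calc (qn n : ℝ) * (qn n : ℝ) ^ 2 = (qn n : ℝ) ^ 3 := by ring
    _ ≤ 64 * (n : ℝ) := h4
    _ = (n : ℝ) * 64 := by ring

end Pool.Agent.Lib.MP_cf0832_co
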