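import Pool.Agent.Lib.MP_cf0832_co.Paths

/-!
Embeddings of theta graphs `H_{k,4}` in the counterexample graphs.
-/

namespace Pool.Agent.Lib.MP_cf0832_co

open Finset

theorem theta_adj4 (k : ℕ) (i : Fin k) :
    (theta k 4).Adj (Sum.inl false) (Sum.inr (i, 0)) ∧
    (theta k 4).Adj (Sum.inr (i, 0)) (Sum.inr (i, 1)) ∧
    (theta k 4).Adj (Sum.inr (i, 1)) (Sum.inr (i, 2)) ∧
    (theta k 4).Adj (Sum.inr (i, 2)) (Sum.inl true) := by
  unfold theta
  simp only [SimpleGraph.fromRel_adj]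
  refine ⟨⟨by simp, Or.inl ⟨i, 0, by norm_num, by simp [thetaVertex], by simp [thetaVertex]⟩⟩,
    ⟨by simp, Or.inl ⟨i, 1, by norm_num, by simp [thetaVertex], by simp [thetaVertex]⟩⟩,
    ⟨by simp, Or.inl ⟨i, 2, by norm_num, by simp [thetaVertex], by simp [thetaVertex]⟩⟩,
    ⟨by simp, Or.inl ⟨i, 3, by norm_num, by simp [thetaVertex], by simp [thetaVertex]⟩⟩⟩

theorem theta_edges (k l : ℕ) : (theta k l).edgeSet.ncard ≤ k * l := by
  have h : (theta k l).edgeSet ⊆ (fun x : Fin k × Fin l =>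
      s(thetaVertex k l x.1 x.2, thetaVertex k l x.1 (x.2 + 1))) '' Set.univ := by
    intro e
    induction e using Sym2.ind with
    | _ a b =>
      rw [SimpleGraph.mem_edgeSet]
      intro hab
      unfold theta at hab
      rw [SimpleGraph.fromRel_adj] at hab
      rcases hab.2 with ⟨i, j, hj, h1, h2⟩ | ⟨i, j, hj, h1, h2⟩
      · exact ⟨(i, ⟨j, hj⟩), Set.mem_univ _, by simp only; rw [h1, h2]⟩
      · refine ⟨(i, ⟨j, hj⟩), Set.mem_univ _, ?_⟩
        simp only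
        rw [h1, h2, Sym2.eq_swap]
  refine le_trans (Set.ncard_le_ncard h (Set.toFinite _)) ?_
  refine le_trans (Set.ncard_image_le (Set.toFinite _)) ?_
  rw [Set.ncard_univ, Nat.card_prod, Nat.card_eq_fintype_card (α := Fin k),
    Nat.card_eq_fintype_card (α := Fin l), Fintype.card_fin, Fintype.card_fin]

section

variable {n q t : ℕ}

/-- Embeddings. -/
abbrev Emb (k n q t : ℕ) := {f : Bool ⊕ (Fin k × Fin (4 - 1)) → Fin n // Function.Injective f ∧
  ∀ a b, (theta k 4).Adj a b → (gr n q t).Adj (f a) (f b)}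

theorem emb_adj {k : ℕ} (f : Emb k n q t) (i : Fin k) :
    (gr n q t).Adj (f.1 (Sum.inl false)) (f.1 (Sum.inr (i, 0))) ∧
    (gr n q t).Adj (f.1 (Sum.inr (i, 0))) (f.1 (Sum.inr (i, 1))) ∧
    (gr n q t).Adj (f.1 (Sum.inr (i, 1))) (f.1 (Sum.inr (i, 2))) ∧
    (gr n q t).Adj (f.1 (Sum.inr (i, 2))) (f.1 (Sum.inl true)) := by
  obtain ⟨h1, h2, h3, h4⟩ := theta_adj4 k i
  exact ⟨f.2.2 _ _ h1, f.2.2 _ _ h2, f.2.2 _ _ h3, f.2.2 _ _ h4⟩

theorem emb_ext {k : ℕ} (f g : Emb k n q t) (h0 : f.1 (Sum.inl false) = g.1 (Sum.inl false))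
    (h1 : f.1 (Sum.inl true) = g.1 (Sum.inl true))
    (h2 : ∀ i, f.1 (Sum.inr (i, 0)) = g.1 (Sum.inr (i, 0)))
    (h3 : ∀ i, f.1 (Sum.inr (i, 1)) = g.1 (Sum.inr (i, 1)))
    (h4 : ∀ i, f.1 (Sum.inr (i, 2)) = g.1 (Sum.inr (i, 2))) : f = g := by
  apply Subtype.ext
  funext a
  rcases a with a | ⟨i, j⟩
  · cases a
    · exact h0
    · exact h1
  · fin_cases j
    · exact h2 i
    · exact h3 i
    · exact h4 i

/-- Embeddings in the background. -/
theorem card_emb_bg [Fact q.Prime] (k : ℕ) (hn : n < q ^ 3) (hm : 2 * t ^ 3 + 3 ≤ n / 2) :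
    Nat.card {f : Emb k n q t // 2 * t ^ 3 + 3 ≤ ((f.1 (Sum.inl false) : Fin n) : ℕ)} ≤
      n ^ 2 * q ^ k := by
  let φ : {f : Emb k n q t // 2 * t ^ 3 + 3 ≤ ((f.1 (Sum.inl false) : Fin n) : ℕ)} →
      Fin n × Fin n × (Fin k → ZMod q) :=
    fun f => (f.1.1 (Sum.inl false), f.1.1 (Sum.inl true),
      fun i => (vec q (f.1.1 (Sum.inr (i, 0)))).1)
  have hφ : Function.Injective φ := by
    rintro ⟨f, hf⟩ ⟨g, hg⟩ h
    have e0 : f.1 (Sum.inl false) = g.1 (Sum.inl false) := congrArg (fun z => z.1) h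
    have e1 : f.1 (Sum.inl true) = g.1 (Sum.inl true) := congrArg (fun z => z.2.1) h
    have e2' : ∀ i, (vec q (f.1 (Sum.inr (i, 0)))).1 = (vec q (g.1 (Sum.inr (i, 0)))).1 :=
      fun i => congrFun (congrArg (fun z => z.2.2) h) i
    have e2 : ∀ i, f.1 (Sum.inr (i, 0)) = g.1 (Sum.inr (i, 0)) := by
      intro i
      apply bg_nbr_unique hn hm hf (emb_adj f i).1 _ (e2' i)
      rw [e0]
      exact (emb_adj g i).1
    have e34 : ∀ i, f.1 (Sum.inr (i, 1)) = g.1 (Sum.inr (i, 1)) ∧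
        f.1 (Sum.inr (i, 2)) = g.1 (Sum.inr (i, 2)) := by
      intro i
      obtain ⟨a1, a2, a3, a4⟩ := emb_adj f i
      obtain ⟨b1, b2, b3, b4⟩ := emb_adj g i
      have hu := (adj_bg hm hf a1).1
      have hne : ∀ (f : Emb k n q t) (a b : Bool ⊕ (Fin k × Fin (4 - 1))), a ≠ b →
        f.1 a ≠ f.1 b := fun f a b hab h => hab (f.2.1 h)
      apply bg_path_unique hn hm hu a2 a3 a4 _ _
      · rw [e2 i]; exact b2
      · exact b3
      · rw [e1]; exact b4
      · rw [e2 i]; exact hne g _ _ (by simp)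
      · rw [e1]; exact hne g _ _ (by simp)
      · exact hne f _ _ (by simp)
      · exact hne f _ _ (by simp)
    exact Subtype.ext (emb_ext f g e0 e1 e2 (fun i => (e34 i).1) (fun i => (e34 i).2))
  have : NeZero q := ⟨(Fact.out : q.Prime).ne_zero⟩
  have := Nat.card_le_card_of_injective φ hφ
  rw [Nat.card_prod, Nat.card_prod, Nat.card_eq_fintype_card (α := Fin n), Fintype.card_fin,
    Nat.card_eq_fintype_card (α := Fin k → ZMod q), Fintype.card_fun, Fintype.card_fin,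
    ZMod.card] at this
  calc _ ≤ n * (n * q ^ k) := this
    _ = n ^ 2 * q ^ k := by ring

/-- Block number. -/
def blk (t i : ℕ) : ℕ := if i < 3 + t ^ 3 then (i - 3) / t else (i - 3 - t ^ 3) / t

theorem blk_eq {i j : ℕ} (hi : 3 ≤ i) (hj : 3 ≤ j) (h : relPL t i j ∨ relPL t j i) :
    blk t i = blk t j := by
  unfold relPL at h
  unfold blk
  rcases h with (h | h | h | h) | (h | h | h | h)
  · omega
  · omega
  · omega
  · rw [if_pos h.2.1, if_neg (by omega)]; exact h.2.2.2.2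
  · omega
  · omega
  · omega
  · rw [if_pos h.2.1, if_neg (by omega)]; exact h.2.2.2.2.symm

/-- Vertices of a block. -/
def Blk (n t β : ℕ) : Finset (Fin n) :=
  Finset.univ.filter (fun x : Fin n => 3 ≤ (x : ℕ) ∧ (x : ℕ) < 2 * t ^ 3 + 3 ∧ blk t x = β)

theorem card_Blk (ht : 1 ≤ t) (β : ℕ) : (Blk n t β).card ≤ 2 * t := by
  have h : (Blk n t β).card ≤ (Finset.univ : Finset (Bool × Fin t)).card := by
    apply Finset.card_le_card_of_injOn
      (fun x : Fin n => ((decide ((x : ℕ) < 3 + t ^ 3),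
        if (x : ℕ) < 3 + t ^ 3 then ⟨((x : ℕ) - 3) % t, Nat.mod_lt _ ht⟩
        else ⟨((x : ℕ) - 3 - t ^ 3) % t, Nat.mod_lt _ ht⟩) : Bool × Fin t))
    · intro x _
      exact Finset.mem_coe.2 (mem_univ _)
    · intro x hx y hy hxy
      have hx := Finset.mem_coe.1 hx
      have hy := Finset.mem_coe.1 hy
      unfold Blk at hx hy
      rw [mem_filter] at hx hy
      obtain ⟨_, hx1, hx2, hx3⟩ := hx
      obtain ⟨_, hy1, hy2, hy3⟩ := hy
      simp only [Prod.mk.injEq, decide_eq_decide] at hxy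
      obtain ⟨h1, h2⟩ := hxy
      unfold blk at hx3 hy3
      apply Fin.ext
      by_cases hc : (x : ℕ) < 3 + t ^ 3
      · have hc' := h1.1 hc
        rw [if_pos hc] at hx3
        rw [if_pos hc'] at hy3
        rw [if_pos hc, if_pos hc'] at h2
        have h3 : ((x : ℕ) - 3) % t = ((y : ℕ) - 3) % t := congrArg Fin.val h2
        have e1 := Nat.div_add_mod ((x : ℕ) - 3) t
        have e2 := Nat.div_add_mod ((y : ℕ) - 3) t
        rw [hx3] at e1
        rw [hy3] at e2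
        omega
      · have hc' : ¬ (y : ℕ) < 3 + t ^ 3 := fun h => hc (h1.2 h)
        rw [if_neg hc] at hx3
        rw [if_neg hc'] at hy3
        rw [if_neg hc, if_neg hc'] at h2
        have h3 : ((x : ℕ) - 3 - t ^ 3) % t = ((y : ℕ) - 3 - t ^ 3) % t := congrArg Fin.val h2
        have e1 := Nat.div_add_mod ((x : ℕ) - 3 - t ^ 3) t
        have e2 := Nat.div_add_mod ((y : ℕ) - 3 - t ^ 3) t
        rw [hx3] at e1
        rw [hy3] at e2
        omega
  rw [Finset.card_univ, Fintype.card_prod, Fintype.card_bool, Fintype.card_fin] at h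
  exact h

theorem card_lt (n c : ℕ) : (Finset.univ.filter (fun x : Fin n => (x : ℕ) < c)).card ≤ c := by
  have h : (Finset.univ.filter (fun x : Fin n => (x : ℕ) < c)).card ≤ (Finset.range c).card := by
    apply Finset.card_le_card_of_injOn (fun x : Fin n => (x : ℕ))
    · intro x hx
      have hx := Finset.mem_coe.1 hx
      rw [mem_filter] at hx
      exact Finset.mem_coe.2 (Finset.mem_range.2 hx.2)
    · intro x _ y _ h
      exact Fin.ext h
  rwa [Finset.card_range] at h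

/-- Triples of inner vertices meeting `{0,1,2}`. -/
def Bad (n t : ℕ) : Finset (Fin n × Fin n × Fin n) :=
  Finset.univ.filter (fun x => (x.1 : ℕ) < 2 * t ^ 3 + 3 ∧ (x.2.1 : ℕ) < 2 * t ^ 3 + 3 ∧
    (x.2.2 : ℕ) < 2 * t ^ 3 + 3 ∧ ((x.1 : ℕ) < 3 ∨ (x.2.1 : ℕ) < 3 ∨ (x.2.2 : ℕ) < 3))

theorem card_Bad : (Bad n t).card ≤ 9 * (2 * t ^ 3 + 3) ^ 2 := by
  set A : Finset (Fin n) := Finset.univ.filter (fun x : Fin n => (x : ℕ) < 3) with hA
  set B : Finset (Fin n) := Finset.univ.filter (fun x : Fin n => (x : ℕ) < 2 * t ^ 3 + 3) with hB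
  have cA : A.card ≤ 3 := card_lt n 3
  have cB : B.card ≤ 2 * t ^ 3 + 3 := card_lt n _
  have hsub : Bad n t ⊆ (A ×ˢ B ×ˢ B) ∪ ((B ×ˢ A ×ˢ B) ∪ (B ×ˢ B ×ˢ A)) := by
    intro x hx
    unfold Bad at hx
    rw [mem_filter] at hx
    simp only [mem_union, mem_product, hA, hB, mem_filter, mem_univ, true_and]
    tauto
  refine le_trans (Finset.card_le_card hsub) ?_
  refine le_trans (Finset.card_union_le _ _) ?_
  have h2 := Finset.card_union_le (B ×ˢ A ×ˢ B) (B ×ˢ B ×ˢ A)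
  simp only [Finset.card_product] at h2 ⊢
  have e1 : A.card * (B.card * B.card) ≤ 3 * ((2 * t ^ 3 + 3) * (2 * t ^ 3 + 3)) :=
    Nat.mul_le_mul cA (Nat.mul_le_mul cB cB)
  have e2 : B.card * (A.card * B.card) ≤ (2 * t ^ 3 + 3) * (3 * (2 * t ^ 3 + 3)) :=
    Nat.mul_le_mul cB (Nat.mul_le_mul cA cB)
  have e3 : B.card * (B.card * A.card) ≤ (2 * t ^ 3 + 3) * ((2 * t ^ 3 + 3) * 3) :=
    Nat.mul_le_mul cB (Nat.mul_le_mul cB cA)
  have e4 : 9 * (2 * t ^ 3 + 3) ^ 2 = 3 * ((2 * t ^ 3 + 3) * (2 * t ^ 3 + 3)) +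
    ((2 * t ^ 3 + 3) * (3 * (2 * t ^ 3 + 3)) + (2 * t ^ 3 + 3) * ((2 * t ^ 3 + 3) * 3)) := by ring
  rw [e4]
  omega

open Classical in
/-- Triples of inner vertices (of paths from `y` to `z`) avoiding `{0,1,2}`. -/
noncomputable def Good (n q t : ℕ) (y z : Fin n) : Finset (Fin n × Fin n × Fin n) :=
  Finset.univ.filter (fun x => 3 ≤ (x.1 : ℕ) ∧ 3 ≤ (x.2.1 : ℕ) ∧ 3 ≤ (x.2.2 : ℕ) ∧
    (gr n q t).Adj y x.1 ∧ (gr n q t).Adj x.1 x.2.1 ∧ (gr n q t).Adj x.2.1 x.2.2 ∧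
      (gr n q t).Adj x.2.2 z)

theorem mem_Good {y z : Fin n} {x : Fin n × Fin n × Fin n} : x ∈ Good n q t y z ↔
    3 ≤ (x.1 : ℕ) ∧ 3 ≤ (x.2.1 : ℕ) ∧ 3 ≤ (x.2.2 : ℕ) ∧
    (gr n q t).Adj y x.1 ∧ (gr n q t).Adj x.1 x.2.1 ∧ (gr n q t).Adj x.2.1 x.2.2 ∧
      (gr n q t).Adj x.2.2 z := by
  classical
  unfold Good
  simp only [mem_filter, mem_univ, true_and]

theorem card_Good (hm : 2 * t ^ 3 + 3 ≤ n / 2) (ht : 1 ≤ t) (y z : Fin n)
    (hy : (y : ℕ) < 2 * t ^ 3 + 3) (hyz : y ≠ z) : (Good n q t y z).card ≤ 8 * t ^ 3 := by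
  have hside : ∀ x ∈ Good n q t y z, 3 ≤ (x.1 : ℕ) ∧ (x.1 : ℕ) < 2 * t ^ 3 + 3 ∧
      3 ≤ (x.2.1 : ℕ) ∧ (x.2.1 : ℕ) < 2 * t ^ 3 + 3 ∧ 3 ≤ (x.2.2 : ℕ) ∧
      (x.2.2 : ℕ) < 2 * t ^ 3 + 3 ∧ (relPL t y x.1 ∨ relPL t x.1 y) ∧
      (relPL t x.2.2 z ∨ relPL t z x.2.2) ∧ (relPL t x.1 x.2.1 ∨ relPL t x.2.1 x.1) ∧
      (relPL t x.2.1 x.2.2 ∨ relPL t x.2.2 x.2.1) ∧
      blk t x.1 = blk t x.2.1 ∧ blk t x.2.1 = blk t x.2.2 := by
    intro x hx
    rw [mem_Good] at hx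
    obtain ⟨h1, h2, h3, a1, a2, a3, a4⟩ := hx
    obtain ⟨b1, c1⟩ := adj_pl hm hy a1
    obtain ⟨b2, c2⟩ := adj_pl hm b1 a2
    obtain ⟨b3, c3⟩ := adj_pl hm b2 a3
    obtain ⟨b4, c4⟩ := adj_pl hm b3 a4
    exact ⟨h1, b1, h2, b2, h3, b3, c1, c4, c2, c3, blk_eq h1 h2 c2, blk_eq h2 h3 c3⟩
  have hbox : ∀ β : ℕ, (∀ x ∈ Good n q t y z, blk t x.1 = β) →
      (Good n q t y z).card ≤ 8 * t ^ 3 := by
    intro β hβ
    have hsub : Good n q t y z ⊆ Blk n t β ×ˢ Blk n t β ×ˢ Blk n t β := by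
      intro x hx
      have h1 := hβ x hx
      obtain ⟨a1, a2, a3, a4, a5, a6, _, _, _, _, e1, e2⟩ := hside x hx
      unfold Blk
      simp only [mem_product, mem_filter, mem_univ, true_and]
      exact ⟨⟨a1, a2, h1⟩, ⟨a3, a4, by rw [← e1, h1]⟩, ⟨a5, a6, by rw [← e2, ← e1, h1]⟩⟩
    refine le_trans (Finset.card_le_card hsub) ?_
    rw [Finset.card_product, Finset.card_product]
    have hb := card_Blk (n := n) ht β
    calc (Blk n t β).card * ((Blk n t β).card * (Blk n t β).card)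
        ≤ (2 * t) * ((2 * t) * (2 * t)) := Nat.mul_le_mul hb (Nat.mul_le_mul hb hb)
      _ = 8 * t ^ 3 := by ring
  by_cases h3 : 3 ≤ (y : ℕ)
  · apply hbox (blk t y)
    intro x hx
    obtain ⟨a1, _, _, _, _, _, c1, _⟩ := hside x hx
    exact (blk_eq h3 a1 c1).symm
  by_cases h4 : 3 ≤ (z : ℕ)
  · apply hbox (blk t z)
    intro x hx
    obtain ⟨_, _, _, _, a5, _, _, c4, _, _, e1, e2⟩ := hside x hx
    rw [e1, e2]
    exact blk_eq a5 h4 c4
  -- both ends are in `{0,1,2}`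
  have hempty : Good n q t y z = ∅ := by
    rw [Finset.eq_empty_iff_forall_notMem]
    intro x hx
    obtain ⟨a1, a2, a3, a4, a5, a6, c1, c4, c2, c3, e1, e2⟩ := hside x hx
    have hyz' : (y : ℕ) ≠ z := fun h => hyz (Fin.ext h)
    unfold relPL at c1 c2 c3 c4
    omega
  rw [hempty]
  simp

theorem bad_or_good (hm : 2 * t ^ 3 + 3 ≤ n / 2) {k : ℕ} (f : Emb k n q t)
    (hf : ((f.1 (Sum.inl false) : Fin n) : ℕ) < 2 * t ^ 3 + 3) (i : Fin k) :
    (f.1 (Sum.inr (i, 0)), f.1 (Sum.inr (i, 1)), f.1 (Sum.inr (i, 2))) ∈ Bad n t ∨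
    (f.1 (Sum.inr (i, 0)), f.1 (Sum.inr (i, 1)), f.1 (Sum.inr (i, 2))) ∈
      Good n q t (f.1 (Sum.inl false)) (f.1 (Sum.inl true)) := by
  obtain ⟨a1, a2, a3, a4⟩ := emb_adj f i
  obtain ⟨b1, _⟩ := adj_pl hm hf a1
  obtain ⟨b2, _⟩ := adj_pl hm b1 a2
  obtain ⟨b3, _⟩ := adj_pl hm b2 a3
  rw [mem_Good]
  unfold Bad
  simp only [mem_filter, mem_univ, true_and]
  by_cases h : (((f.1 (Sum.inr (i, 0)) : Fin n) : ℕ) < 3 ∨
      ((f.1 (Sum.inr (i, 1)) : Fin n) : ℕ) < 3 ∨ ((f.1 (Sum.inr (i, 2)) : Fin n) : ℕ) < 3)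
  · left; exact ⟨b1, b2, b3, h⟩
  · right
    push Not at h
    exact ⟨h.1, h.2.1, h.2.2, a1, a2, a3, a4⟩

open Classical in
/-- Target set for the embeddings in the planted part. -/
noncomputable def Tgt (k n q t : ℕ) : Finset (Fin n × Fin n × (Fin k → Fin n × Fin n × Fin n)) :=
  (((Finset.univ.filter (fun x : Fin n => (x : ℕ) < 2 * t ^ 3 + 3)) ×ˢ
    (Finset.univ.filter (fun x : Fin n => (x : ℕ) < 2 * t ^ 3 + 3))).filter
      (fun yz => yz.1 ≠ yz.2)).biUnion (fun yz =>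
    ((Finset.univ : Finset (Fin k)).powerset.filter (fun J => J.card ≤ 3)).biUnion (fun J =>
      (Fintype.piFinset (fun i => if i ∈ J then Bad n t else Good n q t yz.1 yz.2)).image
        (fun τ => (yz.1, yz.2, τ))))

theorem card_pi_le (hm : 2 * t ^ 3 + 3 ≤ n / 2) (ht : 1 ≤ t) (hq : 1 ≤ q) (htq : t ^ 3 ≤ q)
    (k : ℕ) (y z : Fin n)
    (hy : (y : ℕ) < 2 * t ^ 3 + 3) (hyz : y ≠ z) (J : Finset (Fin k)) (hJ : J.card ≤ 3) :
    (Fintype.piFinset (fun i => if i ∈ J then Bad n t else Good n q t y z)).card ≤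
      (225 * q) ^ k * q ^ 3 := by
  rw [Fintype.card_piFinset]
  have h1 : ∀ i ∈ (Finset.univ : Finset (Fin k)),
      (if i ∈ J then Bad n t else Good n q t y z).card ≤ (225 * q) * (if i ∈ J then q else 1) := by
    intro i _
    split_ifs with h
    · refine le_trans card_Bad ?_
      have : 2 * t ^ 3 + 3 ≤ 5 * q := by omega
      calc 9 * (2 * t ^ 3 + 3) ^ 2 ≤ 9 * (5 * q) ^ 2 :=
            Nat.mul_le_mul_left 9 (Nat.pow_le_pow_left this 2)
        _ = 225 * q * q := by ring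
    · refine le_trans (card_Good hm ht y z hy hyz) ?_
      omega
  refine le_trans (Finset.prod_le_prod' h1) ?_
  rw [Finset.prod_mul_distrib, Finset.prod_const, Finset.card_univ, Fintype.card_fin]
  apply Nat.mul_le_mul_left
  rw [Finset.prod_ite_mem, Finset.univ_inter, Finset.prod_const]
  exact Nat.pow_le_pow_right hq hJ

theorem card_Tgt (hm : 2 * t ^ 3 + 3 ≤ n / 2) (ht : 1 ≤ t) (hq : 1 ≤ q) (htq : t ^ 3 ≤ q)
    (k : ℕ) : (Tgt k n q t).card ≤ 25 * 450 ^ k * q ^ (k + 5) := by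
  classical
  have h2 : ∀ yz ∈ (((Finset.univ.filter (fun x : Fin n => (x : ℕ) < 2 * t ^ 3 + 3)) ×ˢ
    (Finset.univ.filter (fun x : Fin n => (x : ℕ) < 2 * t ^ 3 + 3))).filter
      (fun yz : Fin n × Fin n => yz.1 ≠ yz.2)),
      (((Finset.univ : Finset (Fin k)).powerset.filter (fun J => J.card ≤ 3)).biUnion (fun J =>
      (Fintype.piFinset (fun i => if i ∈ J then Bad n t else Good n q t yz.1 yz.2)).image
        (fun τ => (yz.1, yz.2, τ)))).card ≤ 2 ^ k * ((225 * q) ^ k * q ^ 3) := by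
    intro yz hyz
    simp only [mem_filter, mem_product, mem_univ, true_and] at hyz
    refine le_trans (Finset.card_biUnion_le_card_mul _ _ ((225 * q) ^ k * q ^ 3) ?_) ?_
    · intro J hJ
      refine le_trans Finset.card_image_le ?_
      exact card_pi_le hm ht hq htq k _ _ hyz.1.1 hyz.2 J (mem_filter.1 hJ).2
    · apply Nat.mul_le_mul_right
      refine le_trans (Finset.card_filter_le _ _) ?_
      rw [Finset.card_powerset, Finset.card_univ, Fintype.card_fin]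
  unfold Tgt
  refine le_trans (Finset.card_biUnion_le_card_mul _ _ _ h2) ?_
  have h3 : (((Finset.univ.filter (fun x : Fin n => (x : ℕ) < 2 * t ^ 3 + 3)) ×ˢ
    (Finset.univ.filter (fun x : Fin n => (x : ℕ) < 2 * t ^ 3 + 3))).filter
      (fun yz : Fin n × Fin n => yz.1 ≠ yz.2)).card ≤ (5 * q) * (5 * q) := by
    refine le_trans (Finset.card_filter_le _ _) ?_
    rw [Finset.card_product]
    have h4 := card_lt n (2 * t ^ 3 + 3)
    have h5 : 2 * t ^ 3 + 3 ≤ 5 * q := by omega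
    exact Nat.mul_le_mul (le_trans h4 h5) (le_trans h4 h5)
  refine le_trans (Nat.mul_le_mul_right _ h3) ?_
  apply le_of_eq
  have : (450 : ℕ) ^ k = 2 ^ k * 225 ^ k := by rw [← mul_pow]; norm_num
  rw [this, mul_pow, pow_add]
  ring

/-- Embeddings in the planted part. -/
theorem card_emb_pl (hm : 2 * t ^ 3 + 3 ≤ n / 2) (ht : 1 ≤ t) (hq : 1 ≤ q) (htq : t ^ 3 ≤ q)
    (k : ℕ) (hk : 1 ≤ k) :
    Nat.card {f : Emb k n q t // ¬ 2 * t ^ 3 + 3 ≤ ((f.1 (Sum.inl false) : Fin n) : ℕ)} ≤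
      25 * 450 ^ k * q ^ (k + 5) := by
  classical
  refine le_trans ?_ (card_Tgt hm ht hq htq k)
  let φ : {f : Emb k n q t // ¬ 2 * t ^ 3 + 3 ≤ ((f.1 (Sum.inl false) : Fin n) : ℕ)} →
      (Tgt k n q t : Finset _) := fun f => ⟨(f.1.1 (Sum.inl false), f.1.1 (Sum.inl true),
        fun i => (f.1.1 (Sum.inr (i, 0)), f.1.1 (Sum.inr (i, 1)), f.1.1 (Sum.inr (i, 2)))), by
      obtain ⟨f, hf⟩ := f
      have hf : ((f.1 (Sum.inl false) : Fin n) : ℕ) < 2 * t ^ 3 + 3 := by omega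
      have hz : ((f.1 (Sum.inl true) : Fin n) : ℕ) < 2 * t ^ 3 + 3 := by
        obtain ⟨a1, a2, a3, a4⟩ := emb_adj f ⟨0, hk⟩
        exact (adj_pl hm (adj_pl hm (adj_pl hm (adj_pl hm hf a1).1 a2).1 a3).1 a4).1
      have hne : f.1 (Sum.inl false) ≠ f.1 (Sum.inl true) := fun h => by
        have := f.2.1 h
        simp at this
      unfold Tgt
      rw [Finset.mem_biUnion]
      refine ⟨(f.1 (Sum.inl false), f.1 (Sum.inl true)), ?_, ?_⟩
      · simp only [mem_filter, mem_product, mem_univ, true_and]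
        exact ⟨⟨hf, hz⟩, hne⟩
      rw [Finset.mem_biUnion]
      -- the set of bad indices
      set J : Finset (Fin k) := Finset.univ.filter (fun i =>
        (f.1 (Sum.inr (i, 0)), f.1 (Sum.inr (i, 1)), f.1 (Sum.inr (i, 2))) ∈ Bad n t) with hJ
      refine ⟨J, ?_, ?_⟩
      · rw [mem_filter, Finset.mem_powerset]
        refine ⟨Finset.subset_univ _, ?_⟩
        -- each bad index uses one of the vertices 0, 1, 2
        have hex : ∀ i ∈ J, ∃ c : Fin 3, ∃ j : Fin (4 - 1),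
            ((f.1 (Sum.inr (i, j)) : Fin n) : ℕ) = c := by
          intro i hi
          rw [hJ, mem_filter] at hi
          have hi2 := hi.2
          unfold Bad at hi2
          rw [mem_filter] at hi2
          rcases hi2.2.2.2.2 with h | h | h
          · exact ⟨⟨_, h⟩, 0, rfl⟩
          · exact ⟨⟨_, h⟩, 1, rfl⟩
          · exact ⟨⟨_, h⟩, 2, rfl⟩
        have hc : J.card ≤ (Finset.univ : Finset (Fin 3)).card := by
          apply Finset.card_le_card_of_injOn (fun i => if hi : i ∈ J then (hex i hi).choose else 0)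
          · intro i _
            exact Finset.mem_coe.2 (mem_univ _)
          · intro i hi i' hi' heq
            have hi := Finset.mem_coe.1 hi
            have hi' := Finset.mem_coe.1 hi'
            simp only [dif_pos hi, dif_pos hi'] at heq
            obtain ⟨j, hj⟩ := (hex i hi).choose_spec
            obtain ⟨j', hj'⟩ := (hex i' hi').choose_spec
            rw [heq] at hj
            have h1 : f.1 (Sum.inr (i, j)) = f.1 (Sum.inr (i', j')) := Fin.ext (hj.trans hj'.symm)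
            have h2 := f.2.1 h1
            simp only [Sum.inr.injEq, Prod.mk.injEq] at h2
            exact h2.1
        simpa using hc
      · rw [Finset.mem_image]
        refine ⟨_, ?_, rfl⟩
        rw [Fintype.mem_piFinset]
        intro i
        by_cases hi : i ∈ J
        · rw [if_pos hi]
          rw [hJ, mem_filter] at hi
          exact hi.2
        · rw [if_neg hi]
          rcases bad_or_good hm f hf i with h | h
          · exact absurd (by rw [hJ, mem_filter]; exact ⟨mem_univ _, h⟩) hi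
          · exact h⟩
  have hφ : Function.Injective φ := by
    rintro ⟨f, hf⟩ ⟨g, hg⟩ h
    have h' := congrArg Subtype.val h
    have e0 : f.1 (Sum.inl false) = g.1 (Sum.inl false) := congrArg (fun z => z.1) h'
    have e1 : f.1 (Sum.inl true) = g.1 (Sum.inl true) := congrArg (fun z => z.2.1) h'
    have e2 : ∀ i, (f.1 (Sum.inr (i, 0)), f.1 (Sum.inr (i, 1)), f.1 (Sum.inr (i, 2))) =
        (g.1 (Sum.inr (i, 0)), g.1 (Sum.inr (i, 1)), g.1 (Sum.inr (i, 2))) :=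
      fun i => congrFun (congrArg (fun z => z.2.2) h') i
    exact Subtype.ext (emb_ext f g e0 e1 (fun i => congrArg (fun z => z.1) (e2 i))
      (fun i => congrArg (fun z => z.2.1) (e2 i)) (fun i => congrArg (fun z => z.2.2) (e2 i)))
  have := Nat.card_le_card_of_injective φ hφ
  rwa [Nat.card_eq_fintype_card (α := (Tgt k n q t : Finset _)), Fintype.card_coe] at this

/-- The number of embeddings of `H_{k,4}`. -/
theorem emb_theta_le [Fact q.Prime] (hn : n < q ^ 3) (hm : 2 * t ^ 3 + 3 ≤ n / 2) (ht : 1 ≤ t)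
    (htq : t ^ 3 ≤ q) (k : ℕ) (hk : 1 ≤ k) :
    emb (theta k 4) (gr n q t) ≤ (1 + 25 * 450 ^ k) * q ^ (k + 6) := by
  have hq : 1 ≤ q := (Fact.out : q.Prime).one_lt.le
  have h1 : emb (theta k 4) (gr n q t) =
      Nat.card {f : Emb k n q t // 2 * t ^ 3 + 3 ≤ ((f.1 (Sum.inl false) : Fin n) : ℕ)} +
      Nat.card {f : Emb k n q t // ¬ 2 * t ^ 3 + 3 ≤ ((f.1 (Sum.inl false) : Fin n) : ℕ)} := by
    classical
    unfold emb
    rw [← Nat.card_sum]
    exact Nat.card_congr (Equiv.sumCompl _).symm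
  rw [h1]
  have h2 := card_emb_bg (t := t) k hn hm
  have h3 := card_emb_pl hm ht hq htq k hk
  have h4 : n ^ 2 * q ^ k ≤ q ^ (k + 6) := by
    calc n ^ 2 * q ^ k ≤ (q ^ 3) ^ 2 * q ^ k :=
          Nat.mul_le_mul_right _ (Nat.pow_le_pow_left hn.le 2)
      _ = q ^ (k + 6) := by ring
  have h5 : 25 * 450 ^ k * q ^ (k + 5) ≤ 25 * 450 ^ k * q ^ (k + 6) :=
    Nat.mul_le_mul_left _ (Nat.pow_le_pow_right hq (by omega))
  calc _ ≤ q ^ (k + 6) + 25 * 450 ^ k * q ^ (k + 6) :=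
        Nat.add_le_add (le_trans h2 h4) (le_trans h3 h5)
    _ = _ := by ring

end

end Pool.Agent.Lib.MP_cf0832_co
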