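import Pool.Agent.Lib.MP_cf0832_co.Graph

/-!
Embeddings of trees in the counterexample graphs.
-/

namespace Pool.Agent.Lib.MP_cf0832_co

open Finset

section

variable {n q t : ℕ}

/-- Embeddings of a graph on `Fin m`. -/
abbrev EmbT {m : ℕ} (T : SimpleGraph (Fin m)) (n q t : ℕ) :=
  {f : Fin m → Fin n // Function.Injective f ∧ ∀ a b, T.Adj a b → (gr n q t).Adj (f a) (f b)}

theorem conn_side {m : ℕ} {T : SimpleGraph (Fin m)} (hT : T.Connected)
    (hm : 2 * t ^ 3 + 3 ≤ n / 2) (f : EmbT T n q t) (r v : Fin m) :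
    (((f.1 r : Fin n) : ℕ) < 2 * t ^ 3 + 3 ↔ ((f.1 v : Fin n) : ℕ) < 2 * t ^ 3 + 3) := by
  have h : T.Reachable r v := hT.preconnected r v
  rw [SimpleGraph.reachable_iff_reflTransGen] at h
  induction h with
  | refl => rfl
  | tail _ hab ih => exact ih.trans (adj_side hm (f.2.2 _ _ hab))

theorem card_embT_pl {m : ℕ} {T : SimpleGraph (Fin m)} (hT : T.Connected)
    (hm : 2 * t ^ 3 + 3 ≤ n / 2) (r : Fin m) :
    Nat.card {f : EmbT T n q t // ¬ 2 * t ^ 3 + 3 ≤ ((f.1 r : Fin n) : ℕ)} ≤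
      (2 * t ^ 3 + 3) ^ m := by
  let φ : {f : EmbT T n q t // ¬ 2 * t ^ 3 + 3 ≤ ((f.1 r : Fin n) : ℕ)} →
      (Fin m → Fin (2 * t ^ 3 + 3)) := fun f v =>
    ⟨(f.1.1 v : Fin n), (conn_side hT hm f.1 r v).1 (by have := f.2; omega)⟩
  have hφ : Function.Injective φ := by
    rintro ⟨f, hf⟩ ⟨g, hg⟩ h
    apply Subtype.ext
    apply Subtype.ext
    funext v
    have := congrArg Fin.val (congrFun h v)
    exact Fin.ext this
  have := Nat.card_le_card_of_injective φ hφ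
  rw [Nat.card_eq_fintype_card (α := Fin m → Fin (2 * t ^ 3 + 3)), Fintype.card_fun,
    Fintype.card_fin, Fintype.card_fin] at this
  exact this

theorem card_embT_bg [Fact q.Prime] (hn : n < q ^ 3) {m : ℕ} {T : SimpleGraph (Fin m)}
    (hT : T.Connected) (hm : 2 * t ^ 3 + 3 ≤ n / 2) (r : Fin m) :
    Nat.card {f : EmbT T n q t // 2 * t ^ 3 + 3 ≤ ((f.1 r : Fin n) : ℕ)} ≤
      n * q ^ (m - 1) := by
  have : NeZero q := ⟨(Fact.out : q.Prime).ne_zero⟩
  let φ : {f : EmbT T n q t // 2 * t ^ 3 + 3 ≤ ((f.1 r : Fin n) : ℕ)} →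
      Fin n × ({v : Fin m // v ≠ r} → ZMod q) := fun f => (f.1.1 r, fun v => (vec q (f.1.1 v)).1)
  have hφ : Function.Injective φ := by
    rintro ⟨f, hf⟩ ⟨g, hg⟩ h
    apply Subtype.ext
    apply Subtype.ext
    funext v
    have e0 : f.1 r = g.1 r := congrArg Prod.fst h
    have e1 : ∀ v : Fin m, v ≠ r → (vec q (f.1 v)).1 = (vec q (g.1 v)).1 := fun v hv =>
      congrFun (congrArg Prod.snd h) ⟨v, hv⟩
    have hr : T.Reachable r v := hT.preconnected r v
    rw [SimpleGraph.reachable_iff_reflTransGen] at hr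
    induction hr with
    | refl => exact e0
    | @tail w v _ hab ih =>
      by_cases hv : v = r
      · rw [hv]; exact e0
      · have hw : 2 * t ^ 3 + 3 ≤ ((f.1 w : Fin n) : ℕ) := by
          have := conn_side hT hm f r w
          omega
        apply bg_nbr_unique hn hm hw (f.2.2 _ _ hab) _ (e1 v hv)
        show (gr n q t).Adj (f.1 w) (g.1 v)
        have ih' : f.1 w = g.1 w := ih
        rw [ih']
        exact g.2.2 _ _ hab
  have := Nat.card_le_card_of_injective φ hφ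
  rw [Nat.card_prod, Nat.card_eq_fintype_card (α := Fin n), Fintype.card_fin,
    Nat.card_eq_fintype_card (α := {v : Fin m // v ≠ r} → ZMod q), Fintype.card_fun,
    ZMod.card, Fintype.card_subtype_compl, Fintype.card_fin, Fintype.card_subtype_eq] at this
  exact this

theorem emb_tree_le [Fact q.Prime] (hn : n < q ^ 3) {m : ℕ} {T : SimpleGraph (Fin m)}
    (hT : T.Connected) (hm : 2 * t ^ 3 + 3 ≤ n / 2) (htq : t ^ 3 ≤ q) :
    emb T (gr n q t) ≤ (1 + 5 ^ m) * q ^ (m + 2) := by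
  have hq : 1 ≤ q := (Fact.out : q.Prime).one_lt.le
  obtain ⟨r⟩ := hT.nonempty
  have hm0 : 1 ≤ m := r.pos
  have h1 : emb T (gr n q t) =
      Nat.card {f : EmbT T n q t // 2 * t ^ 3 + 3 ≤ ((f.1 r : Fin n) : ℕ)} +
      Nat.card {f : EmbT T n q t // ¬ 2 * t ^ 3 + 3 ≤ ((f.1 r : Fin n) : ℕ)} := by
    classical
    unfold emb
    rw [← Nat.card_sum]
    exact Nat.card_congr (Equiv.sumCompl _).symm
  rw [h1]
  have h2 := card_embT_bg (t := t) hn hT hm r
  have h3 := card_embT_pl (q := q) hT hm r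
  have h4 : n * q ^ (m - 1) ≤ q ^ (m + 2) := by
    calc n * q ^ (m - 1) ≤ q ^ 3 * q ^ (m - 1) := Nat.mul_le_mul_right _ hn.le
      _ = q ^ (m + 2) := by rw [← pow_add]; congr 1; omega
  have h5 : (2 * t ^ 3 + 3) ^ m ≤ 5 ^ m * q ^ (m + 2) := by
    calc (2 * t ^ 3 + 3) ^ m ≤ (5 * q) ^ m := Nat.pow_le_pow_left (by omega) m
      _ = 5 ^ m * q ^ m := by rw [mul_pow]
      _ ≤ 5 ^ m * q ^ (m + 2) := Nat.mul_le_mul_left _ (Nat.pow_le_pow_right hq (by omega))
  calc _ ≤ q ^ (m + 2) + 5 ^ m * q ^ (m + 2) := Nat.add_le_add (le_trans h2 h4) (le_trans h3 h5)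
    _ = _ := by ring

theorem tree_edges {m : ℕ} {T : SimpleGraph (Fin m)} (hT : T.IsTree) :
    T.edgeSet.ncard + 1 = m := by
  classical
  have := hT.card_edgeFinset
  rw [Fintype.card_fin] at this
  rw [← SimpleGraph.coe_edgeFinset, Set.ncard_coe_finset]
  exact this

end

end Pool.Agent.Lib.MP_cf0832_co
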