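import Pool.Agent.Lib.MP_cf0832_co.CutBound
import Pool.Agent.Lib.MP_cf0832_co.Theta
import Pool.Agent.Lib.MP_cf0832_co.Trees

/-!
The choice of the parameters of the counterexample graphs, and the elementary estimates.
-/

namespace Pool.Agent.Lib.MP_cf0832_co

open MeasureTheory Finset Filter Topology Asymptotics
open scoped unitInterval

theorem exists_q (n : ℕ) (hn : 0 < n) : ∃ q : ℕ, q.Prime ∧ n < q ^ 3 ∧ q ^ 3 ≤ 64 * n := by
  have hex : ∃ r : ℕ, n < r ^ 3 := ⟨n + 1, by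
    calc n < n + 1 := Nat.lt_succ_self n
      _ ≤ (n + 1) ^ 3 := Nat.le_self_pow (by norm_num) _⟩
  classical
  set r := Nat.find hex with hr
  have h1 : n < r ^ 3 := Nat.find_spec hex
  have h2 : 2 ≤ r := by
    by_contra hc
    have : r ≤ 1 := by omega
    have : r ^ 3 ≤ 1 ^ 3 := Nat.pow_le_pow_left this 3
    omega
  have h3 : (r - 1) ^ 3 ≤ n := by
    have := Nat.find_min hex (m := r - 1) (by omega)
    omega
  obtain ⟨q, hq, hq1, hq2⟩ := Nat.exists_prime_lt_and_le_two_mul (r - 1) (by omega)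
  refine ⟨q, hq, ?_, ?_⟩
  · calc n < r ^ 3 := h1
      _ ≤ q ^ 3 := Nat.pow_le_pow_left (by omega) 3
  · calc q ^ 3 ≤ (2 * (r - 1)) ^ 3 := Nat.pow_le_pow_left hq2 3
      _ = 8 * (r - 1) ^ 3 := by ring
      _ ≤ 8 * n := Nat.mul_le_mul_left _ h3
      _ ≤ 64 * n := by omega

theorem exists_t (q : ℕ) (hq : 1 ≤ q) : ∃ t : ℕ, 1 ≤ t ∧ t ^ 3 ≤ q ∧ q ≤ 8 * t ^ 3 := by
  classical
  have hex : ∃ r : ℕ, q < r ^ 3 := ⟨q + 1, by
    calc q < q + 1 := Nat.lt_succ_self q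
      _ ≤ (q + 1) ^ 3 := Nat.le_self_pow (by norm_num) _⟩
  set r := Nat.find hex with hr
  have h1 : q < r ^ 3 := Nat.find_spec hex
  have h2 : 2 ≤ r := by
    by_contra hc
    have : r ≤ 1 := by omega
    have : r ^ 3 ≤ 1 ^ 3 := Nat.pow_le_pow_left this 3
    omega
  have h3 : (r - 1) ^ 3 ≤ q := by
    have := Nat.find_min hex (m := r - 1) (by omega)
    omega
  refine ⟨r - 1, by omega, h3, ?_⟩
  calc q ≤ r ^ 3 := h1.le
    _ ≤ (2 * (r - 1)) ^ 3 := Nat.pow_le_pow_left (by omega) 3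
    _ = 8 * (r - 1) ^ 3 := by ring

theorem exists_params (n : ℕ) : ∃ x : ℕ × ℕ, x.1.Prime ∧ (0 < n → n < x.1 ^ 3 ∧ x.1 ^ 3 ≤ 64 * n) ∧
    1 ≤ x.2 ∧ x.2 ^ 3 ≤ x.1 ∧ x.1 ≤ 8 * x.2 ^ 3 := by
  rcases Nat.eq_zero_or_pos n with h | h
  · exact ⟨(2, 1), Nat.prime_two, fun h' => absurd h' (by omega), by norm_num, by norm_num,
      by norm_num⟩
  · obtain ⟨q, hq, h1, h2⟩ := exists_q n h
    obtain ⟨t, ht, h3, h4⟩ := exists_t q hq.one_lt.le
    exact ⟨(q, t), hq, fun _ => ⟨h1, h2⟩, ht, h3, h4⟩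

/-- The prime used for `n` vertices. -/
noncomputable def qn (n : ℕ) : ℕ := (Classical.choose (exists_params n)).1

/-- The parameter of the planted part. -/
noncomputable def tn (n : ℕ) : ℕ := (Classical.choose (exists_params n)).2

theorem qn_prime (n : ℕ) : (qn n).Prime := (Classical.choose_spec (exists_params n)).1

theorem qn_bound {n : ℕ} (hn : 0 < n) : n < qn n ^ 3 ∧ qn n ^ 3 ≤ 64 * n :=
  (Classical.choose_spec (exists_params n)).2.1 hn

theorem tn_bound (n : ℕ) : 1 ≤ tn n ∧ tn n ^ 3 ≤ qn n ∧ qn n ≤ 8 * tn n ^ 3 :=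
  (Classical.choose_spec (exists_params n)).2.2

theorem qn_tendsto : Tendsto qn atTop atTop := by
  rw [tendsto_atTop]
  intro b
  filter_upwards [eventually_ge_atTop (b ^ 3 + 1)] with n hn
  have h := (qn_bound (n := n) (by omega)).1
  by_contra hc
  have : qn n ^ 3 ≤ b ^ 3 := Nat.pow_le_pow_left (by omega) 3
  omega

theorem tn_tendsto : Tendsto tn atTop atTop := by
  rw [tendsto_atTop]
  intro b
  filter_upwards [qn_tendsto.eventually_ge_atTop (8 * b ^ 3 + 1)] with n hn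
  have h := (tn_bound n).2.2
  by_contra hc
  have : tn n ^ 3 ≤ b ^ 3 := Nat.pow_le_pow_left (by omega) 3
  omega

/-- All the relations between `n, q, t` that are used. -/
theorem good : ∀ᶠ n : ℕ in atTop, 0 < n ∧ n < qn n ^ 3 ∧ qn n ^ 3 ≤ 64 * n ∧
    2 * tn n ^ 3 + 3 ≤ n / 2 := by
  filter_upwards [qn_tendsto.eventually_ge_atTop 20, eventually_gt_atTop 0] with n hq hn
  obtain ⟨h1, h2⟩ := qn_bound hn
  refine ⟨hn, h1, h2, ?_⟩
  have h3 := (tn_bound n).2.1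
  have h4 : 400 * qn n ≤ qn n ^ 3 := by
    calc 400 * qn n = 20 * 20 * qn n := by ring
      _ ≤ qn n * qn n * qn n := by gcongr
      _ = qn n ^ 3 := by ring
  omega

/-- The sequence of graphs. -/
noncomputable def Gn (n : ℕ) : SimpleGraph (Fin n) := gr n (qn n) (tn n)

/-- The normalising function. -/
noncomputable def pn (n : ℕ) : ℝ := 1 / (qn n : ℝ) ^ 2

theorem pn_pos (n : ℕ) : 0 < pn n ∧ pn n ≤ 1 := by
  have h : (1 : ℝ) ≤ qn n := by exact_mod_cast (qn_prime n).one_lt.le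
  unfold pn
  constructor
  · positivity
  · rw [div_le_one (by positivity)]
    exact one_le_pow₀ h

/-- Lower bound for falling factorials. -/
theorem desc_lower {n m : ℕ} (h : 2 * m ≤ n) : ((n : ℝ) / 2) ^ m ≤ (n.descFactorial m : ℝ) := by
  have h1 := Nat.pow_sub_le_descFactorial n m
  have h2 : ((n : ℝ) / 2) ≤ ((n + 1 - m : ℕ) : ℝ) := by
    rw [div_le_iff₀ (by norm_num)]
    have : n ≤ (n + 1 - m) * 2 := by omega
    exact_mod_cast this
  calc ((n : ℝ) / 2) ^ m ≤ ((n + 1 - m : ℕ) : ℝ) ^ m := by gcongr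
    _ ≤ (n.descFactorial m : ℝ) := by exact_mod_cast h1

/-- The common computation: a bound for `sp` from a bound for `emb`. -/
theorem sp_le {V : Type} [Fintype V] (F : SimpleGraph V) (v e C a : ℕ)
    (hv : Fintype.card V = v) (he : F.edgeSet.ncard ≤ e) (ha : a + 2 * e ≤ 3 * v)
    {n q t : ℕ} (hn0 : 0 < n) (hvn : 2 * v ≤ n) (hq0 : 1 ≤ q) (hq : q ^ 3 ≤ 64 * n)
    (hemb : emb F (gr n q t) ≤ C * q ^ a) :
    sp F (gr n q t) (1 / (q : ℝ) ^ 2) ≤ C * 128 ^ v := by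
  have hq1 : (1 : ℝ) ≤ q := by exact_mod_cast hq0
  have hn' : (0 : ℝ) < n := by exact_mod_cast hn0
  unfold sp
  rw [hv]
  have h1 : (1 / (q : ℝ) ^ 2) ^ e ≤ (1 / (q : ℝ) ^ 2) ^ F.edgeSet.ncard := by
    apply pow_le_pow_of_le_one (by positivity) _ he
    rw [div_le_one (by positivity)]
    exact one_le_pow₀ hq1
  have h2 := desc_lower hvn
  have h3 : (emb F (gr n q t) : ℝ) ≤ C * (q : ℝ) ^ a := by exact_mod_cast hemb
  have h4 : (q : ℝ) ^ 3 ≤ 64 * n := by exact_mod_cast hq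
  calc (emb F (gr n q t) : ℝ) / ((n.descFactorial v : ℝ) * (1 / (q : ℝ) ^ 2) ^ F.edgeSet.ncard)
      ≤ (C * (q : ℝ) ^ a) / (((n : ℝ) / 2) ^ v * (1 / (q : ℝ) ^ 2) ^ e) := by
        apply div_le_div₀ (by positivity) h3 (by positivity)
        exact mul_le_mul h2 h1 (by positivity) (by positivity)
    _ = C * (q : ℝ) ^ (a + 2 * e) / ((n : ℝ) / 2) ^ v := by
        rw [one_div_pow, ← pow_mul, pow_add]
        field_simp
    _ ≤ C * (q : ℝ) ^ (3 * v) / ((n : ℝ) / 2) ^ v := by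
        gcongr
    _ = C * (((q : ℝ) ^ 3) / ((n : ℝ) / 2)) ^ v := by
        rw [div_pow ((q : ℝ) ^ 3), ← pow_mul, mul_div_assoc]
    _ ≤ C * 128 ^ v := by
        have : ((q : ℝ) ^ 3) / ((n : ℝ) / 2) ≤ 128 := by
          rw [div_le_iff₀ (by positivity)]
          linarith
        gcongr

theorem sum_lt_le {n : ℕ} (m : ℕ) : ∑ i : Fin n, (if (i : ℕ) < m then (1 : ℝ) else 0) ≤ m := by
  rw [← Finset.sum_filter, Finset.sum_const, nsmul_eq_mul, mul_one]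
  have : (Finset.univ.filter (fun i : Fin n => (i : ℕ) < m)).card ≤ m := by
    calc (Finset.univ.filter (fun i : Fin n => (i : ℕ) < m)).card
        ≤ (Finset.range m).card := by
          apply Finset.card_le_card_of_injOn (fun i : Fin n => (i : ℕ))
          · intro i hi
            simpa using hi
          · intro i _ j _ h
            exact Fin.ext h
      _ = m := Finset.card_range m
  exact_mod_cast this

theorem condA : CondA pn Gn := by
  intro m T hT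
  apply Filter.IsBoundedUnder.bddAbove_range
  refine ⟨((1 + 5 ^ m : ℕ) : ℝ) * 128 ^ m, ?_⟩
  rw [Filter.eventually_map]
  filter_upwards [good, eventually_ge_atTop (2 * m)] with n ⟨h0, h1, h2, h3⟩ h4
  have : Fact (qn n).Prime := ⟨qn_prime n⟩
  have he := tree_edges hT
  have hm : 1 ≤ m := by omega
  exact sp_le T m (m - 1) (1 + 5 ^ m) (m + 2) (Fintype.card_fin m) (by omega) (by omega) h0 h4
    (qn_prime n).one_lt.le h2 (emb_tree_le h1 hT.connected h3 (tn_bound n).2.1)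

theorem condTheta : CondTheta 4 pn Gn := by
  intro k hk
  rw [Asymptotics.isBigO_iff]
  refine ⟨((1 + 25 * 450 ^ k : ℕ) : ℝ) * 128 ^ (2 + k * 3), ?_⟩
  filter_upwards [good, eventually_ge_atTop (2 * (2 + k * 3))] with n ⟨h0, h1, h2, h3⟩ h4
  have : Fact (qn n).Prime := ⟨qn_prime n⟩
  have hb := sp_le (theta k 4) (2 + k * 3) (k * 4) (1 + 25 * 450 ^ k) (k + 6)
    (by simp) (theta_edges k 4) (by omega) h0 h4
    (qn_prime n).one_lt.le h2 (emb_theta_le h1 h3 (tn_bound n).1 (tn_bound n).2.1 k hk)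
  have h5 : 0 ≤ sp (theta k 4) (Gn n) (pn n) := by
    unfold sp
    have := (pn_pos n).1
    positivity
  rw [Real.norm_of_nonneg h5, norm_one, mul_one]
  exact hb

theorem condB : CondB 4 pn Gn := by
  unfold CondB
  rw [Asymptotics.isBigO_iff]
  refine ⟨(64 : ℝ) ^ 4 * (1 + 5 ^ 6 * 64 ^ 2), ?_⟩
  filter_upwards [good] with n ⟨h0, h1, h2, h3⟩
  have : Fact (qn n).Prime := ⟨qn_prime n⟩
  have hn' : (0 : ℝ) < n := by exact_mod_cast h0
  have hq1 : (1 : ℝ) ≤ qn n := by exact_mod_cast (qn_prime n).one_lt.le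
  have h4 : (qn n : ℝ) ^ 3 ≤ 64 * n := by exact_mod_cast h2
  have hmq : 2 * tn n ^ 3 + 3 ≤ 5 * qn n := by
    have := (tn_bound n).2.1
    have := (qn_prime n).one_lt
    omega
  set m : ℕ := 2 * tn n ^ 3 + 3 with hmdef
  have hmq' : (m : ℝ) ≤ 5 * qn n := by exact_mod_cast hmq
  have hcard : ∑ i : Fin n, (if (i : ℕ) < m then (1 : ℝ) else 0) ≤ m := sum_lt_le m
  have b1 : ∀ u v : Fin n, (pathCount (Gn n) (4 - 1) u v : ℝ) ^ 2 ≤
      1 + (if (u : ℕ) < m then 1 else 0) * (if (v : ℕ) < m then 1 else 0) * (m : ℝ) ^ 4 := by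
    intro u v
    by_cases hu : (u : ℕ) < m
    · have h5 := pc3_pl (q := qn n) h3 u v hu
      by_cases hv : (v : ℕ) < m
      · rw [if_pos hv] at h5
        rw [if_pos hu, if_pos hv, one_mul, one_mul]
        have h6 : (pathCount (Gn n) (4 - 1) u v : ℝ) ≤ (m : ℝ) ^ 2 := by exact_mod_cast h5
        calc (pathCount (Gn n) (4 - 1) u v : ℝ) ^ 2 ≤ ((m : ℝ) ^ 2) ^ 2 := by gcongr
          _ = (m : ℝ) ^ 4 := by ring
          _ ≤ _ := by linarith
      · rw [if_neg hv] at h5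
        have h6 : pathCount (Gn n) (4 - 1) u v = 0 := Nat.le_zero.1 h5
        rw [h6, if_neg hv]
        norm_num
    · have h5 := pc3_bg h1 h3 u v (by omega)
      rw [if_neg hu]
      have h6 : (pathCount (Gn n) (4 - 1) u v : ℝ) ≤ 1 := by exact_mod_cast h5
      have h7 : (0 : ℝ) ≤ (pathCount (Gn n) (4 - 1) u v : ℝ) := Nat.cast_nonneg _
      nlinarith
  have b2 : ∑ u : Fin n, ∑ v ∈ Finset.univ.filter (· ≠ u),
      (pathCount (Gn n) (4 - 1) u v : ℝ) ^ 2 ≤ (n : ℝ) ^ 2 + (m : ℝ) ^ 6 := by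
    calc ∑ u : Fin n, ∑ v ∈ Finset.univ.filter (· ≠ u),
        (pathCount (Gn n) (4 - 1) u v : ℝ) ^ 2
        ≤ ∑ u : Fin n, ∑ v : Fin n, (pathCount (Gn n) (4 - 1) u v : ℝ) ^ 2 :=
          Finset.sum_le_sum fun u _ => Finset.sum_le_sum_of_subset_of_nonneg
            (Finset.filter_subset _ _) (fun _ _ _ => sq_nonneg _)
      _ ≤ ∑ u : Fin n, ∑ v : Fin n, (1 + (if (u : ℕ) < m then 1 else 0) *
            (if (v : ℕ) < m then 1 else 0) * (m : ℝ) ^ 4) :=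
          Finset.sum_le_sum fun u _ => Finset.sum_le_sum fun v _ => b1 u v
      _ = (n : ℝ) ^ 2 + (∑ u : Fin n, (if (u : ℕ) < m then (1 : ℝ) else 0)) *
            (∑ v : Fin n, (if (v : ℕ) < m then (1 : ℝ) else 0)) * (m : ℝ) ^ 4 := by
          simp only [Finset.sum_add_distrib]
          congr 1
          · simp [sq]
          · rw [Finset.sum_mul_sum, Finset.sum_mul]
            apply Finset.sum_congr rfl
            intro u _
            rw [Finset.sum_mul]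
      _ ≤ (n : ℝ) ^ 2 + m * m * (m : ℝ) ^ 4 := by
          have h3 : 0 ≤ ∑ i : Fin n, (if (i : ℕ) < m then (1 : ℝ) else 0) :=
            Finset.sum_nonneg fun i _ => by split_ifs <;> norm_num
          gcongr
      _ = _ := by ring
  have b3 : (m : ℝ) ^ 6 ≤ 5 ^ 6 * 64 ^ 2 * (n : ℝ) ^ 2 := by
    calc (m : ℝ) ^ 6 ≤ (5 * qn n) ^ 6 := by gcongr
      _ = 5 ^ 6 * ((qn n : ℝ) ^ 3) ^ 2 := by ring
      _ ≤ 5 ^ 6 * (64 * n) ^ 2 := by gcongr
      _ = _ := by ring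
  have b4 : (n : ℝ) ^ 2 ≤ 64 ^ 4 * ((n : ℝ) ^ (2 * 4 - 2) * (pn n) ^ (2 * 4 - 2)) := by
    have e : (n : ℝ) ^ (2 * 4 - 2) * (pn n) ^ (2 * 4 - 2) = (n : ℝ) ^ 6 / ((qn n : ℝ) ^ 3) ^ 4 := by
      unfold pn
      norm_num
      field_simp
    rw [e, ← mul_div_assoc, le_div_iff₀ (by positivity)]
    calc (n : ℝ) ^ 2 * ((qn n : ℝ) ^ 3) ^ 4 ≤ (n : ℝ) ^ 2 * (64 * n) ^ 4 := by gcongr
      _ = _ := by ring
  have h8 : 0 ≤ ∑ u : Fin n, ∑ v ∈ Finset.univ.filter (· ≠ u),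
      (pathCount (Gn n) (4 - 1) u v : ℝ) ^ 2 :=
    Finset.sum_nonneg fun _ _ => Finset.sum_nonneg fun _ _ => sq_nonneg _
  have h9 : 0 ≤ (n : ℝ) ^ (2 * 4 - 2) * (pn n) ^ (2 * 4 - 2) := by
    have := (pn_pos n).1
    positivity
  rw [Real.norm_of_nonneg h8, Real.norm_of_nonneg h9]
  calc ∑ u : Fin n, ∑ v ∈ Finset.univ.filter (· ≠ u), (pathCount (Gn n) (4 - 1) u v : ℝ) ^ 2
      ≤ (n : ℝ) ^ 2 + (m : ℝ) ^ 6 := b2
    _ ≤ (n : ℝ) ^ 2 + 5 ^ 6 * 64 ^ 2 * (n : ℝ) ^ 2 := by linarith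
    _ = (1 + 5 ^ 6 * 64 ^ 2) * (n : ℝ) ^ 2 := by ring
    _ ≤ (1 + 5 ^ 6 * 64 ^ 2) * (64 ^ 4 * ((n : ℝ) ^ (2 * 4 - 2) * (pn n) ^ (2 * 4 - 2))) := by
        gcongr
    _ = _ := by ring

theorem not_condD : ¬ CondD 4 pn Gn := by
  intro h
  have h := h 19 (by norm_num)
  rw [Asymptotics.isBigO_iff] at h
  obtain ⟨c, hc⟩ := h
  have h1 : ∀ᶠ n : ℕ in atTop, (tn n : ℝ) / 8 ^ 25 ≤ c := by
    filter_upwards [hc, good] with n hc ⟨h0, h1, h2, h3⟩
    have hn' : (0 : ℝ) < n := by exact_mod_cast h0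
    have hq1 : (1 : ℝ) ≤ qn n := by exact_mod_cast (qn_prime n).one_lt.le
    have ht := (tn_bound n).2.2
    have ht' : (qn n : ℝ) / 8 ≤ (tn n : ℝ) ^ 3 := by
      rw [div_le_iff₀ (by norm_num)]
      have : qn n ≤ tn n ^ 3 * 8 := by omega
      exact_mod_cast this
    have hne : (⟨2, by omega⟩ : Fin n) ≠ ⟨0, h0⟩ := by
      intro h
      have := congrArg (fun x : Fin n => (x : ℕ)) h
      simp at this
    have hp := pc4_planted (q := qn n) h3 (tn_bound n).1 ⟨0, h0⟩ ⟨2, by omega⟩ rfl rfl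
    have hp' : (tn n : ℝ) ^ 4 ≤ (pathCount (Gn n) 4 ⟨0, h0⟩ ⟨2, by omega⟩ : ℝ) := by
      exact_mod_cast hp
    have hs : ((tn n : ℝ) ^ 4) ^ 19 ≤ ∑ u : Fin n, ∑ v ∈ Finset.univ.filter (· ≠ u),
        (pathCount (Gn n) 4 u v : ℝ) ^ 19 := by
      calc ((tn n : ℝ) ^ 4) ^ 19 ≤ (pathCount (Gn n) 4 ⟨0, h0⟩ ⟨2, by omega⟩ : ℝ) ^ 19 := by gcongr
        _ ≤ ∑ v ∈ Finset.univ.filter (· ≠ (⟨0, h0⟩ : Fin n)),
              (pathCount (Gn n) 4 ⟨0, h0⟩ v : ℝ) ^ 19 :=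
            Finset.single_le_sum (f := fun v => (pathCount (Gn n) 4 ⟨0, h0⟩ v : ℝ) ^ 19)
              (fun _ _ => by positivity) (by simp [hne])
        _ ≤ _ := Finset.single_le_sum (f := fun u => ∑ v ∈ Finset.univ.filter (· ≠ u),
              (pathCount (Gn n) 4 u v : ℝ) ^ 19)
              (fun _ _ => Finset.sum_nonneg fun _ _ => by positivity) (Finset.mem_univ _)
    have h8 : 0 ≤ ∑ u : Fin n, ∑ v ∈ Finset.univ.filter (· ≠ u),
        (pathCount (Gn n) 4 u v : ℝ) ^ 19 := le_trans (by positivity) hs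
    have h9 : 0 ≤ (n : ℝ) ^ (2 + 19 * (4 - 1)) * (pn n) ^ (19 * 4) := by
      have := (pn_pos n).1
      positivity
    rw [Real.norm_of_nonneg h8, Real.norm_of_nonneg h9] at hc
    have h10 : (n : ℝ) ^ (2 + 19 * (4 - 1)) * (pn n) ^ (19 * 4) ≤ (qn n : ℝ) ^ 25 := by
      have e : (n : ℝ) ^ (2 + 19 * (4 - 1)) * (pn n) ^ (19 * 4) =
          (n : ℝ) ^ 59 / (qn n : ℝ) ^ 152 := by
        unfold pn
        rw [one_div_pow, ← pow_mul]
        norm_num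
        rfl
      rw [e, div_le_iff₀ (by positivity)]
      have : (n : ℝ) ≤ (qn n : ℝ) ^ 3 := by exact_mod_cast h1.le
      calc (n : ℝ) ^ 59 ≤ ((qn n : ℝ) ^ 3) ^ 59 := by gcongr
        _ = (qn n : ℝ) ^ 25 * (qn n : ℝ) ^ 152 := by ring
    have h11 : (tn n : ℝ) * ((qn n : ℝ) / 8) ^ 25 ≤ ((tn n : ℝ) ^ 4) ^ 19 := by
      calc (tn n : ℝ) * ((qn n : ℝ) / 8) ^ 25 ≤ (tn n : ℝ) * ((tn n : ℝ) ^ 3) ^ 25 := by gcongr
        _ = _ := by ring
    have hc0 : 0 ≤ c := by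
      by_contra hneg
      push Not at hneg
      have ht1 : (1 : ℝ) ≤ tn n := by exact_mod_cast (tn_bound n).1
      have : 0 < ((tn n : ℝ) ^ 4) ^ 19 := by positivity
      have : c * ((n : ℝ) ^ (2 + 19 * (4 - 1)) * (pn n) ^ (19 * 4)) ≤ 0 :=
        mul_nonpos_of_nonpos_of_nonneg hneg.le h9
      linarith
    have h12 : (tn n : ℝ) * ((qn n : ℝ) / 8) ^ 25 ≤ c * (qn n : ℝ) ^ 25 := by
      calc (tn n : ℝ) * ((qn n : ℝ) / 8) ^ 25 ≤ _ := h11.trans (hs.trans hc)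
        _ ≤ _ := by gcongr
    have hq25 : (0 : ℝ) < (qn n : ℝ) ^ 25 := by positivity
    have h13 : (tn n : ℝ) / 8 ^ 25 * (qn n : ℝ) ^ 25 ≤ c * (qn n : ℝ) ^ 25 := by
      calc (tn n : ℝ) / 8 ^ 25 * (qn n : ℝ) ^ 25 = (tn n : ℝ) * ((qn n : ℝ) / 8) ^ 25 := by
            rw [div_pow]; ring
        _ ≤ _ := h12
    exact le_of_mul_le_mul_right h13 hq25
  have h2 : Tendsto (fun n : ℕ => (tn n : ℝ) / 8 ^ 25) atTop atTop := by
    apply Tendsto.atTop_div_const (by positivity)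
    exact tendsto_natCast_atTop_atTop.comp tn_tendsto
  obtain ⟨n, hn1, hn2⟩ := (h1.and (h2.eventually_gt_atTop c)).exists
  linarith

end Pool.Agent.Lib.MP_cf0832_co
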