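import Pool.Agent.Lib.MP_cf0832_co.Graph

/-!
Path counts in the counterexample graphs.
-/

namespace Pool.Agent.Lib.MP_cf0832_co

open Finset

section

variable {n q t : ℕ}

theorem pc3_bg [Fact q.Prime] (hn : n < q ^ 3) (hm : 2 * t ^ 3 + 3 ≤ n / 2) (u v : Fin n)
    (hu : 2 * t ^ 3 + 3 ≤ (u : ℕ)) : pathCount (gr n q t) 3 u v ≤ 1 := by
  unfold pathCount
  rw [Finite.card_le_one_iff_subsingleton]
  refine ⟨?_⟩
  rintro ⟨x, hx, hx0, hx3, hxa⟩ ⟨y, hy, hy0, hy3, hya⟩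
  have hx3' : x 3 = v := hx3
  have hy3' : y 3 = v := hy3
  have a01 : (gr n q t).Adj (x 0) (x 1) := hxa 0
  have a12 : (gr n q t).Adj (x 1) (x 2) := hxa 1
  have a23 : (gr n q t).Adj (x 2) (x 3) := hxa 2
  have b01 : (gr n q t).Adj (y 0) (y 1) := hya 0
  have b12 : (gr n q t).Adj (y 1) (y 2) := hya 1
  have b23 : (gr n q t).Adj (y 2) (y 3) := hya 2
  have n20 : x 2 ≠ x 0 := fun h => absurd (hx h) (by decide)
  have n13 : x 1 ≠ x 3 := fun h => absurd (hx h) (by decide)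
  have m20 : y 2 ≠ y 0 := fun h => absurd (hy h) (by decide)
  have m13 : y 1 ≠ y 3 := fun h => absurd (hy h) (by decide)
  rw [hx0] at a01 n20
  rw [hy0] at b01 m20
  rw [hx3'] at a23 n13
  rw [hy3'] at b23 m13
  have key := bg_path_unique hn hm hu a01 a12 a23 n20 n13 b01 b12 b23 m20 m13
  apply Subtype.ext
  funext i
  fin_cases i
  · exact hx0.trans hy0.symm
  · exact key.1
  · exact key.2
  · exact hx3'.trans hy3'.symm

/-- A path starting in the planted part stays there. -/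
theorem path_side (hm : 2 * t ^ 3 + 3 ≤ n / 2) {l : ℕ} (x : Fin (l + 1) → Fin n)
    (hxa : ∀ i : Fin l, (gr n q t).Adj (x i.castSucc) (x i.succ))
    (h0 : ((x 0 : Fin n) : ℕ) < 2 * t ^ 3 + 3) (i : Fin (l + 1)) :
    ((x i : Fin n) : ℕ) < 2 * t ^ 3 + 3 := by
  induction i using Fin.induction with
  | zero => exact h0
  | succ i ih => exact (adj_side hm (hxa i)).1 ih

theorem pc3_pl (hm : 2 * t ^ 3 + 3 ≤ n / 2) (u v : Fin n) (hu : (u : ℕ) < 2 * t ^ 3 + 3) :
    pathCount (gr n q t) 3 u v ≤ if (v : ℕ) < 2 * t ^ 3 + 3 then (2 * t ^ 3 + 3) ^ 2 else 0 := by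
  unfold pathCount
  split_ifs with hv
  · let φ : {x : Fin (3 + 1) → Fin n // Function.Injective x ∧ x 0 = u ∧ x (Fin.last 3) = v ∧
        ∀ i : Fin 3, (gr n q t).Adj (x i.castSucc) (x i.succ)} →
        Fin (2 * t ^ 3 + 3) × Fin (2 * t ^ 3 + 3) :=
      fun x => (⟨(x.1 1 : Fin n), path_side hm x.1 x.2.2.2.2 (by rw [x.2.2.1]; exact hu) 1⟩,
        ⟨(x.1 2 : Fin n), path_side hm x.1 x.2.2.2.2 (by rw [x.2.2.1]; exact hu) 2⟩)
    have hφ : Function.Injective φ := by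
      intro x y hxy
      have h1 := congrArg (fun z => (z.1 : ℕ)) hxy
      have h2 := congrArg (fun z => (z.2 : ℕ)) hxy
      simp only [φ] at h1 h2
      apply Subtype.ext
      funext i
      fin_cases i
      · exact x.2.2.1.trans y.2.2.1.symm
      · exact Fin.ext h1
      · exact Fin.ext h2
      · exact x.2.2.2.1.trans y.2.2.2.1.symm
    have := Nat.card_le_card_of_injective φ hφ
    rw [Nat.card_prod, Nat.card_eq_fintype_card (α := Fin (2 * t ^ 3 + 3)),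
      Fintype.card_fin] at this
    rw [sq]
    exact this
  · rw [Nat.le_zero, Finite.card_eq_zero_iff]
    refine ⟨?_⟩
    rintro ⟨x, hx, hx0, hx3, hxa⟩
    apply hv
    rw [← hx3]
    exact path_side hm x hxa (by rw [hx0]; exact hu) _

/-- The planted pair `0, 2` has at least `t^4` paths of length four. -/
theorem pc4_planted (hm : 2 * t ^ 3 + 3 ≤ n / 2) (ht : 1 ≤ t) (u v : Fin n) (hu : (u : ℕ) = 0)
    (hv : (v : ℕ) = 2) : t ^ 4 ≤ pathCount (gr n q t) 4 u v := by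
  have hlt : ∀ {a : ℕ}, a < 2 * t ^ 3 + 3 → a < n := fun h => by omega
  have hdiv : ∀ i : ℕ, i < t ^ 3 → ∀ j : ℕ, j < t → (i / t) * t + j < t ^ 3 := by
    intro i hi j hj
    have h1 : i / t < t ^ 2 := by
      rw [Nat.div_lt_iff_lt_mul ht]
      calc i < t ^ 3 := hi
        _ = t ^ 2 * t := by ring
    calc (i / t) * t + j < (i / t) * t + t := by omega
      _ = (i / t + 1) * t := by ring
      _ ≤ t ^ 2 * t := Nat.mul_le_mul_right t h1
      _ = t ^ 3 := by ring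
  let pth : Fin (t ^ 3) × Fin t → Fin 5 → Fin n := fun x i =>
    match i with
    | 0 => ⟨0, hlt (by omega)⟩
    | 1 => ⟨1, hlt (by omega)⟩
    | 2 => ⟨3 + x.1, hlt (by have := x.1.2; omega)⟩
    | 3 => ⟨3 + t ^ 3 + ((x.1 / t) * t + x.2), hlt (by have := hdiv _ x.1.2 _ x.2.2; omega)⟩
    | 4 => ⟨2, hlt (by omega)⟩
  have hp : ∀ x, Function.Injective (pth x) ∧ pth x 0 = u ∧ pth x (Fin.last 4) = v ∧
      ∀ i : Fin 4, (gr n q t).Adj (pth x i.castSucc) (pth x i.succ) := by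
    intro x
    have hx1 := x.1.2
    have hx2 := hdiv _ x.1.2 _ x.2.2
    refine ⟨?_, Fin.ext hu.symm, Fin.ext hv.symm, ?_⟩
    · intro i j hij
      have hv' := congrArg Fin.val hij
      fin_cases i <;> fin_cases j <;> simp only [pth] at hv' <;> first | rfl | (exfalso; omega)
    · intro i
      rw [adj_iff]
      fin_cases i
      · left; left; left
        exact ⟨rfl, rfl⟩
      · left; left; right; left
        refine ⟨rfl, ?_, ?_⟩
        · show 3 ≤ 3 + (x.1 : ℕ); omega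
        · show 3 + (x.1 : ℕ) < 3 + t ^ 3; omega
      · left; left; right; right; right
        show 3 ≤ 3 + (x.1 : ℕ) ∧ 3 + (x.1 : ℕ) < 3 + t ^ 3 ∧
          3 + t ^ 3 ≤ 3 + t ^ 3 + (((x.1 : ℕ) / t) * t + (x.2 : ℕ)) ∧
          3 + t ^ 3 + (((x.1 : ℕ) / t) * t + (x.2 : ℕ)) < 3 + 2 * t ^ 3 ∧
          (3 + (x.1 : ℕ) - 3) / t = (3 + t ^ 3 + (((x.1 : ℕ) / t) * t + (x.2 : ℕ)) - 3 - t ^ 3) / t
        refine ⟨by omega, by omega, by omega, by omega, ?_⟩
        have e1 : 3 + (x.1 : ℕ) - 3 = x.1 := by omega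
        have e2 : 3 + t ^ 3 + (((x.1 : ℕ) / t) * t + (x.2 : ℕ)) - 3 - t ^ 3 =
          (x.2 : ℕ) + ((x.1 : ℕ) / t) * t := by omega
        rw [e1, e2, Nat.add_mul_div_right _ _ ht, Nat.div_eq_of_lt x.2.2, zero_add]
      · right; left; right; right; left
        refine ⟨rfl, ?_, ?_⟩
        · show 3 + t ^ 3 ≤ 3 + t ^ 3 + (((x.1 : ℕ) / t) * t + (x.2 : ℕ)); omega
        · show 3 + t ^ 3 + (((x.1 : ℕ) / t) * t + (x.2 : ℕ)) < 3 + 2 * t ^ 3; omega
  let ψ : Fin (t ^ 3) × Fin t → {x : Fin (4 + 1) → Fin n // Function.Injective x ∧ x 0 = u ∧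
      x (Fin.last 4) = v ∧ ∀ i : Fin 4, (gr n q t).Adj (x i.castSucc) (x i.succ)} :=
    fun x => ⟨pth x, hp x⟩
  have hψ : Function.Injective ψ := by
    rintro ⟨a, b⟩ ⟨c, d⟩ h
    have h1 := congrArg (fun z => ((z.1 2 : Fin n) : ℕ)) h
    have h2 := congrArg (fun z => ((z.1 3 : Fin n) : ℕ)) h
    simp only [ψ, pth] at h1 h2
    have h3 : (a : ℕ) = c := by omega
    rw [h3] at h2
    have h4 : (b : ℕ) = d := by omega
    exact Prod.ext (Fin.ext h3) (Fin.ext h4)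
  have := Nat.card_le_card_of_injective ψ hψ
  rw [Nat.card_prod, Nat.card_eq_fintype_card (α := Fin (t ^ 3)),
    Nat.card_eq_fintype_card (α := Fin t), Fintype.card_fin, Fintype.card_fin] at this
  calc t ^ 4 = t ^ 3 * t := by ring
    _ ≤ _ := this

end

end Pool.Agent.Lib.MP_cf0832_co
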